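import Mathlib

set_option autoImplicit false

/-!
# MP_e326dc_an, block E6 : closed subgroups of the circle
-/

open Filter Topology

namespace MP_e326dc_an

/-- elements of the circle near `1` are exponentials of small angles -/
theorem circle_arg_small {δ : ℝ} (hδ : 0 < δ) :
    ∃ U ∈ 𝓝 (1 : Circle), ∀ z ∈ U, |Complex.arg (z : ℂ)| < δ := by
  have hc : ContinuousAt (fun z : Circle => Complex.arg (z : ℂ)) 1 := by
    have h1 : ContinuousAt Complex.arg ((1 : Circle) : ℂ) := by
      apply Complex.continuousAt_arg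
      simp [Complex.slitPlane]
    exact ContinuousAt.comp (f := fun z : Circle => (z : ℂ)) h1 continuous_subtype_val.continuousAt
  have h0 : Complex.arg (((1 : Circle)) : ℂ) = 0 := by simp
  have h := Metric.tendsto_nhds.mp hc δ hδ
  refine ⟨_, h, fun z hz => ?_⟩
  have h1 : dist (Complex.arg (z : ℂ)) (Complex.arg ((1 : Circle) : ℂ)) < δ := hz
  rw [h0, Real.dist_eq, sub_zero] at h1
  exact h1

/-- a closed subgroup of the circle is everything or discrete -/
theorem circle_closed_sub (B : Subgroup Circle) (hB : IsClosed (B : Set Circle)) :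
    B = ⊤ ∨ ∃ O ∈ 𝓝 (1 : Circle), ∀ z ∈ O, z ∈ B → z = 1 := by
  by_cases h : ∃ O ∈ 𝓝 (1 : Circle), ∀ z ∈ O, z ∈ B → z = 1
  · exact Or.inr h
  left
  push Not at h
  -- arbitrarily small angles
  have hsmall : ∀ δ : ℝ, 0 < δ → ∃ t : ℝ, 0 < t ∧ t < δ ∧ Circle.exp t ∈ B := by
    intro δ hδ
    obtain ⟨U, hU, hUδ⟩ := circle_arg_small hδ
    obtain ⟨z, hzU, hzB, hz1⟩ := h U hU
    have h1 := hUδ z hzU
    have h2 : Circle.exp (Complex.arg (z : ℂ)) = z := Circle.exp_arg z
    have h3 : Complex.arg (z : ℂ) ≠ 0 := by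
      intro h0
      rw [h0, Circle.exp_zero] at h2
      exact hz1 h2.symm
    rcases lt_or_gt_of_ne h3 with h4 | h4
    · refine ⟨-Complex.arg (z : ℂ), by linarith, ?_, ?_⟩
      · rw [abs_of_neg h4] at h1; exact h1
      · rw [Circle.exp_neg, h2]
        exact B.inv_mem hzB
    · refine ⟨Complex.arg (z : ℂ), h4, ?_, ?_⟩
      · rw [abs_of_pos h4] at h1; exact h1
      · rw [h2]; exact hzB
  rw [eq_top_iff]
  intro z _
  have hz : z ∈ closure (B : Set Circle) := by
    rw [mem_closure_iff_nhds]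
    intro V hV
    set a := Complex.arg (z : ℂ) with ha
    have hza : Circle.exp a = z := Circle.exp_arg z
    have hcont : ContinuousAt (fun t : ℝ => Circle.exp t) a := Circle.exp.continuous.continuousAt
    have hV' : V ∈ 𝓝 (Circle.exp a) := by rwa [hza]
    obtain ⟨ε, hε, hball⟩ := Metric.mem_nhds_iff.mp (hcont hV')
    obtain ⟨t, ht0, htε, htB⟩ := hsmall ε hε
    set k : ℤ := ⌊a / t⌋ with hk
    refine ⟨Circle.exp (k * t), ?_, ?_⟩
    · apply hball
      rw [Metric.mem_ball, Real.dist_eq]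
      have h1 : (k : ℝ) ≤ a / t := Int.floor_le _
      have h2 : a / t < k + 1 := Int.lt_floor_add_one _
      have h3 : (k : ℝ) * t ≤ a := by rwa [le_div_iff₀ ht0] at h1
      have h4 : a < (k + 1) * t := by rwa [div_lt_iff₀ ht0] at h2
      rw [abs_lt]
      constructor <;> nlinarith
    · have h5 : Circle.exp (k * t) = (Circle.exp t) ^ k := by
        rw [← Circle.exp_zsmul, zsmul_eq_mul]
      rw [h5]
      exact B.zpow_mem htB k
  rwa [hB.closure_eq] at hz

/-- a retraction of a neighbourhood of `B` in the circle onto the closed subgroup `B` -/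
theorem circle_retract (B : Subgroup Circle) (hB : IsClosed (B : Set Circle)) :
    ∃ (O : Set Circle) (ρ : Circle → B), IsOpen O ∧ (1 : Circle) ∈ O ∧
      (∀ (b : B) (z : Circle), z ∈ O → (b : Circle) * z ∈ O ∧ ρ ((b : Circle) * z) = b * ρ z) ∧
      ContinuousOn ρ O ∧ ρ 1 = 1 := by
  classical
  rcases circle_closed_sub B hB with h | ⟨O, hO, hOB⟩
  · subst h
    refine ⟨Set.univ, fun z => ⟨z, trivial⟩, isOpen_univ, trivial, fun b z _ => ⟨trivial, rfl⟩,
      ?_, rfl⟩
    exact (continuous_id.subtype_mk _).continuousOn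
  · -- a small open neighbourhood `V` with `V⁻¹ V ∩ B = 1`
    have hdiv : Tendsto (fun q : Circle × Circle => q.1⁻¹ * q.2) (𝓝 ((1 : Circle), (1 : Circle)))
        (𝓝 1) := by
      have hc : Continuous fun q : Circle × Circle => q.1⁻¹ * q.2 := by fun_prop
      have := hc.tendsto ((1 : Circle), (1 : Circle))
      simpa using this
    have h1 := hdiv hO
    rw [nhds_prod_eq] at h1
    obtain ⟨V₁, hV₁, V₂, hV₂, hV⟩ := Filter.mem_prod_iff.mp h1
    obtain ⟨V, hVsub, hVo, h1V⟩ := mem_nhds_iff.mp (Filter.inter_mem hV₁ hV₂)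
    have huniq : ∀ (b b' : B) (v v' : Circle), v ∈ V → v' ∈ V →
        (b : Circle) * v = (b' : Circle) * v' → b = b' := by
      intro b b' v v' hv hv' he
      have h2 : v⁻¹ * v' ∈ O := by
        have : (v, v') ∈ V₁ ×ˢ V₂ := ⟨(hVsub hv).1, (hVsub hv').2⟩
        exact hV this
      have h3 : v⁻¹ * v' = ((b : Circle))⁻¹ * 1 * (b : Circle) * (v⁻¹ * v') := by simp
      have h4 : (v' : Circle) = (b' : Circle)⁻¹ * ((b : Circle) * v) := by
        rw [he, inv_mul_cancel_left]
      have h5 : v⁻¹ * v' = (b' : Circle)⁻¹ * (b : Circle) := by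
        rw [h4]
        rw [mul_comm ((b : Circle)) v, mul_left_comm, inv_mul_cancel_left]
      have h6 : v⁻¹ * v' ∈ B := by
        rw [h5]; exact B.mul_mem (B.inv_mem b'.2) b.2
      have h7 := hOB _ h2 h6
      rw [h5] at h7
      have h8 : (b : Circle) = (b' : Circle) := by
        rw [inv_mul_eq_one] at h7; exact h7.symm
      exact Subtype.ext h8
    set O' : Set Circle := {z | ∃ (b : B) (v : Circle), v ∈ V ∧ z = (b : Circle) * v} with hO'
    set ρ : Circle → B := fun z =>
      if h : ∃ (b : B) (v : Circle), v ∈ V ∧ z = (b : Circle) * v then h.choose else 1 with hρ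
    have hρ1 : ∀ (b : B) (v : Circle), v ∈ V → ρ ((b : Circle) * v) = b := by
      intro b v hv
      have h : ∃ (b' : B) (v' : Circle), v' ∈ V ∧ (b : Circle) * v = (b' : Circle) * v' :=
        ⟨b, v, hv, rfl⟩
      have h2 : ρ ((b : Circle) * v) = h.choose := by simp only [hρ]; rw [dif_pos h]
      rw [h2]
      obtain ⟨v', hv', he⟩ := h.choose_spec
      exact (huniq _ _ _ _ hv hv' he).symm
    have hO'eq : O' = ⋃ b : B, (fun z => (b : Circle) * z) '' V := by
      ext z
      simp only [hO', Set.mem_ofPred_eq, Set.mem_iUnion, Set.mem_image]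
      constructor
      · rintro ⟨b, v, hv, rfl⟩; exact ⟨b, v, hv, rfl⟩
      · rintro ⟨b, v, hv, rfl⟩; exact ⟨b, v, hv, rfl⟩
    have hOo : ∀ b : B, IsOpen ((fun z => (b : Circle) * z) '' V) := fun b =>
      (Homeomorph.mulLeft (b : Circle)).isOpenMap V hVo
    refine ⟨O', ρ, ?_, ⟨1, 1, h1V, by simp⟩, ?_, ?_, ?_⟩
    · rw [hO'eq]; exact isOpen_iUnion hOo
    · rintro b z ⟨b', v, hv, rfl⟩
      refine ⟨⟨b * b', v, hv, by rw [← mul_assoc]; rfl⟩, ?_⟩
      rw [hρ1 b' v hv, ← mul_assoc]
      exact hρ1 (b * b') v hv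
    · rintro z ⟨b, v, hv, rfl⟩
      have hmem : (b : Circle) * v ∈ (fun z => (b : Circle) * z) '' V := ⟨v, hv, rfl⟩
      have hev : ρ =ᶠ[𝓝 ((b : Circle) * v)] fun _ => b := by
        filter_upwards [(hOo b).mem_nhds hmem] with w hw
        obtain ⟨v', hv', rfl⟩ := hw
        exact hρ1 b v' hv'
      exact (continuousAt_const.congr hev.symm).continuousWithinAt
    · have := hρ1 1 1 h1V
      simpa using this

end MP_e326dc_an
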