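import Pool.Agent.Lib.MP_e326dc_an.E.Act
import Pool.Agent.Lib.MP_e326dc_an.E6.Retract

set_option autoImplicit false

/-!
# MP_e326dc_an, block E6 : near identification of the fibres of a Lie step
-/

open Filter Topology
open scoped ComplexConjugate

namespace MP_e326dc_an

/-- `z / |z|` as an element of the circle -/
noncomputable def cnrmNZ (z : ℂ) (h : z ≠ 0) : Circle where
  val := z / (‖z‖ : ℂ)
  property := mem_sphere_zero_iff_norm.2 <| by
    rw [norm_div, Complex.norm_real, norm_norm, div_self (norm_ne_zero_iff.mpr h)]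

/-- normalisation `z / |z|` (and `1` for `z = 0`) -/
noncomputable def cnrm (z : ℂ) : Circle := if h : z = 0 then 1 else cnrmNZ z h

theorem coe_cnrm {z : ℂ} (h : z ≠ 0) : ((cnrm z : Circle) : ℂ) = z / (‖z‖ : ℂ) := by
  have h1 : cnrm z = cnrmNZ z h := by unfold cnrm; rw [dif_neg h]
  rw [h1]; rfl

theorem cnrm_mul (b : Circle) {z : ℂ} (h : z ≠ 0) : cnrm ((b : ℂ) * z) = b * cnrm z := by
  have h' : (b : ℂ) * z ≠ 0 := mul_ne_zero (Circle.coe_ne_zero b) h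
  apply Circle.ext
  rw [coe_cnrm h', Circle.coe_mul, coe_cnrm h, norm_mul, Circle.norm_coe, one_mul, mul_div_assoc]

theorem cnrm_one : cnrm 1 = 1 := by
  apply Circle.ext
  rw [coe_cnrm one_ne_zero]; simp

theorem continuousOn_cnrm : ContinuousOn cnrm {z | z ≠ 0} := by
  have hi : IsInducing (fun z : Circle => (z : ℂ)) := Topology.IsInducing.subtypeVal
  rw [hi.continuousOn_iff]
  have h1 : ContinuousOn (fun z : ℂ => z / (‖z‖ : ℂ)) {z | z ≠ 0} := by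
    refine continuousOn_id.div (by fun_prop) fun z hz => ?_
    simpa using hz
  exact h1.congr fun z hz => coe_cnrm hz

namespace LieStep

variable {P P' : DSys} {l : ℕ} (L : LieStep P P' l)

theorem isQuotientMap_fac (L : LieStep P P' l) : IsQuotientMap L.fac.π :=
  (L.fac.cont.isClosedMap).isQuotientMap L.fac.cont L.fac.surj

theorem isOpenMap_fac (L : LieStep P P' l) : IsOpenMap L.fac.π := by
  intro U hU
  rw [← L.isQuotientMap_fac.isOpen_preimage]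
  have h : L.fac.π ⁻¹' (L.fac.π '' U) = ⋃ b : L.B, (L.act.hom b) '' U := by
    ext y
    simp only [Set.mem_preimage, Set.mem_image, Set.mem_iUnion]
    constructor
    · rintro ⟨x, hx, h⟩
      obtain ⟨b, hb⟩ := (L.fib x y).1 h
      exact ⟨b, x, hx, hb⟩
    · rintro ⟨b, x, hx, rfl⟩
      exact ⟨x, hx, (L.fib x _).2 ⟨b, rfl⟩⟩
  rw [h]
  exact isOpen_iUnion fun b => (L.act.hom b).isOpenMap U hU

theorem π_hom (b : L.B) (x : P.X) : L.fac.π (L.act.hom b x) = L.fac.π x :=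
  ((L.fib x _).2 ⟨b, rfl⟩).symm

/-- near identification of the fibres -/
theorem near_ident {n : ℕ} (f : Fin n → C(P.X, ℂ))
    (hf : ∀ i (b : L.B) x, f i (L.act.hom b x) = ((b : Circle) : ℂ) * f i x)
    (hn : ∀ x, ∑ i, ‖f i x‖ ^ 2 = 1) :
    ∃ (D : Set (P.X × P'.X)) (σ : P.X × P'.X → P.X), IsOpen D ∧ (∀ x, (x, L.fac.π x) ∈ D) ∧
      ContinuousOn σ D ∧ (∀ q ∈ D, L.fac.π (σ q) = q.2) ∧
      (∀ (b : L.B) (x : P.X) (y : P'.X), (x, y) ∈ D →
        (L.act.hom b x, y) ∈ D ∧ σ (L.act.hom b x, y) = L.act.hom b (σ (x, y))) ∧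
      ∀ x, σ (x, L.fac.π x) = x := by
  classical
  obtain ⟨O, ρ, hO, h1O, hρ, hρc, hρ1⟩ := circle_retract L.B L.closed
  set θ : P.X × P.X → ℂ := fun q => ∑ i, f i q.2 * conj (f i q.1) with hθ
  have hθc : Continuous θ := by
    refine continuous_finsetSum _ fun i _ => ?_
    exact ((f i).continuous.comp continuous_snd).mul
      (Complex.continuous_conj.comp ((f i).continuous.comp continuous_fst))
  have hθr : ∀ (b : L.B) x y, θ (x, L.act.hom b y) = ((b : Circle) : ℂ) * θ (x, y) := by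
    intro b x y
    simp only [hθ, hf, Finset.mul_sum, mul_assoc]
  have hθl : ∀ (b : L.B) x y, θ (L.act.hom b x, y) = (((b⁻¹ : L.B) : Circle) : ℂ) * θ (x, y) := by
    intro b x y
    simp only [hθ, hf, Finset.mul_sum, map_mul]
    refine Finset.sum_congr rfl fun i _ => ?_
    have : conj (((b : Circle)) : ℂ) = (((b⁻¹ : L.B) : Circle) : ℂ) := by
      rw [Subgroup.coe_inv, Circle.coe_inv_eq_conj]
    rw [this]; ring
  have hθ1 : ∀ x, θ (x, x) = 1 := by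
    intro x
    have h : ∀ i, f i x * conj (f i x) = ((‖f i x‖ ^ 2 : ℝ) : ℂ) := by
      intro i
      rw [Complex.mul_conj, Complex.normSq_eq_norm_sq]
    simp only [hθ, h]
    rw [← Complex.ofReal_sum, hn x, Complex.ofReal_one]
  set D₂ : Set (P.X × P.X) := {q | θ q ≠ 0 ∧ cnrm (θ q) ∈ O} with hD₂
  have hnz : IsOpen {z : ℂ | z ≠ 0} := isOpen_ne
  have hD₂o : IsOpen D₂ := by
    have h1 : IsOpen ({z : ℂ | z ≠ 0} ∩ cnrm ⁻¹' O) := continuousOn_cnrm.isOpen_inter_preimage hnz hO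
    exact h1.preimage hθc
  set σ₂ : P.X × P.X → P.X := fun q => L.act.hom ((ρ (cnrm (θ q)))⁻¹) q.2 with hσ₂
  have hσ₂c : ContinuousOn σ₂ D₂ := by
    have h1 : ContinuousOn (fun q => ρ (cnrm (θ q))) D₂ := by
      refine hρc.comp (continuousOn_cnrm.comp hθc.continuousOn fun q hq => hq.1) fun q hq => hq.2
    have h2 : ContinuousOn (fun q : P.X × P.X => ((ρ (cnrm (θ q)))⁻¹, q.2)) D₂ :=
      h1.inv.prodMk continuous_snd.continuousOn
    exact L.act.cont.comp_continuousOn h2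
  have hD₂r : ∀ (b : L.B) x y, (x, y) ∈ D₂ →
      (x, L.act.hom b y) ∈ D₂ ∧ σ₂ (x, L.act.hom b y) = σ₂ (x, y) := by
    intro b x y hq
    have h1 : cnrm (θ (x, L.act.hom b y)) = (b : Circle) * cnrm (θ (x, y)) := by
      rw [hθr, cnrm_mul _ hq.1]
    have h2 := hρ b _ hq.2
    refine ⟨⟨?_, ?_⟩, ?_⟩
    · rw [hθr]; exact mul_ne_zero (Circle.coe_ne_zero _) hq.1
    · rw [h1]; exact h2.1
    · simp only [hσ₂]
      rw [h1, h2.2, mul_inv, mul_comm, L.act.hom_mul, L.act.hom_inv_hom]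
  have hD₂l : ∀ (b : L.B) x y, (x, y) ∈ D₂ →
      (L.act.hom b x, y) ∈ D₂ ∧ σ₂ (L.act.hom b x, y) = L.act.hom b (σ₂ (x, y)) := by
    intro b x y hq
    have h1 : cnrm (θ (L.act.hom b x, y)) = ((b⁻¹ : L.B) : Circle) * cnrm (θ (x, y)) := by
      rw [hθl, cnrm_mul _ hq.1]
    have h2 := hρ b⁻¹ _ hq.2
    refine ⟨⟨?_, ?_⟩, ?_⟩
    · rw [hθl]; exact mul_ne_zero (Circle.coe_ne_zero _) hq.1
    · rw [h1]; exact h2.1
    · simp only [hσ₂]
      rw [h1, h2.2, mul_inv, inv_inv, L.act.hom_mul]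
  set D : Set (P.X × P'.X) := (fun q : P.X × P.X => (q.1, L.fac.π q.2)) '' D₂ with hD
  have hopen : IsOpenMap (fun q : P.X × P.X => (q.1, L.fac.π q.2)) :=
    IsOpenMap.id.prodMap L.isOpenMap_fac
  have hDex : ∀ q : P.X × P'.X, q ∈ D → ∃ y, L.fac.π y = q.2 ∧ (q.1, y) ∈ D₂ := by
    rintro q ⟨⟨x, y⟩, hxy, rfl⟩
    exact ⟨y, rfl, hxy⟩
  set σ : P.X × P'.X → P.X := fun q =>
    if h : ∃ y, L.fac.π y = q.2 ∧ (q.1, y) ∈ D₂ then σ₂ (q.1, h.choose) else q.1 with hσ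
  have hσeq : ∀ x y, (x, y) ∈ D₂ → σ (x, L.fac.π y) = σ₂ (x, y) := by
    intro x y hxy
    have h : ∃ y', L.fac.π y' = (x, L.fac.π y).2 ∧ ((x, L.fac.π y).1, y') ∈ D₂ := ⟨y, rfl, hxy⟩
    have h2 : σ (x, L.fac.π y) = σ₂ (x, h.choose) := by simp only [hσ]; rw [dif_pos h]
    rw [h2]
    have h3 := h.choose_spec
    obtain ⟨b, hb⟩ := (L.fib y h.choose).1 h3.1.symm
    rw [← hb]
    exact (hD₂r b x y hxy).2
  refine ⟨D, σ, hopen _ hD₂o, ?_, ?_, ?_, ?_, ?_⟩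
  · intro x
    refine ⟨(x, x), ⟨?_, ?_⟩, rfl⟩
    · rw [hθ1]; exact one_ne_zero
    · rw [hθ1, cnrm_one]; exact h1O
  · rintro q ⟨⟨x, y⟩, hxy, rfl⟩
    apply ContinuousAt.continuousWithinAt
    intro N hN
    rw [hσeq x y hxy] at hN
    have h1 : σ₂ ⁻¹' N ∩ D₂ ∈ 𝓝 (x, y) :=
      Filter.inter_mem ((hσ₂c.continuousAt (hD₂o.mem_nhds hxy)) hN) (hD₂o.mem_nhds hxy)
    have h2 := hopen.image_mem_nhds h1
    change σ ⁻¹' N ∈ 𝓝 _
    refine Filter.mem_of_superset h2 ?_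
    rintro _ ⟨⟨x', y'⟩, ⟨h3, h4⟩, rfl⟩
    change σ (x', L.fac.π y') ∈ N
    rw [hσeq x' y' h4]
    exact h3
  · rintro q ⟨⟨x, y⟩, hxy, rfl⟩
    change L.fac.π (σ (x, L.fac.π y)) = L.fac.π y
    rw [hσeq x y hxy]
    exact L.π_hom _ _
  · rintro b x y' ⟨⟨x₀, y⟩, hxy, he⟩
    obtain ⟨rfl, rfl⟩ := Prod.mk.inj he
    have h := hD₂l b x₀ y hxy
    refine ⟨⟨(L.act.hom b x₀, y), h.1, rfl⟩, ?_⟩
    rw [hσeq _ _ h.1, hσeq _ _ hxy, h.2]
  · intro x
    have hxx : (x, x) ∈ D₂ := by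
      refine ⟨?_, ?_⟩
      · rw [hθ1]; exact one_ne_zero
      · rw [hθ1, cnrm_one]; exact h1O
    rw [hσeq x x hxx]
    simp only [hσ₂]
    rw [hθ1, cnrm_one, hρ1, inv_one, L.act.hom_one]

end LieStep

end MP_e326dc_an
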