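import Pool.Agent.Lib.MP_e326dc_an.E6.AllDim
import Pool.Agent.Lib.MP_e326dc_an.E6.NearId
import Pool.Agent.Lib.MP_e326dc_an.E.Near
import Pool.Agent.Lib.MP_e326dc_an.E.Eigen
import Pool.Agent.Lib.MP_e326dc_an.E.Cobd

set_option autoImplicit false
set_option linter.unusedSectionVars false

/-!
# MP_e326dc_an, block E6 : the lifting lemma
-/

open Filter Topology Uniformity

namespace MP_e326dc_an

/-- two nearby points of a power: a neighbourhood of the diagonal over a closed set -/
theorem exists_near_pi {X κ : Type*} [TopologicalSpace X] [CompactSpace X] [T2Space X] [Finite κ]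
    {K : Set (κ → X)} (hK : IsClosed K) {N : Set ((κ → X) × (κ → X))}
    (hN : ∀ c ∈ K, N ∈ 𝓝 (c, c)) :
    ∃ V ∈ 𝓝ˢ (Set.diagonal X), ∀ c ∈ K, ∀ c' : κ → X, (∀ S, (c S, c' S) ∈ V) → (c, c') ∈ N := by
  let _ : UniformSpace X := uniformSpaceOfCompactR1 (γ := X)
  set N' : Set ((κ → X) × (κ → X)) := {q | q.1 ∈ K → q ∈ N} with hN'
  have h1 : N' ∈ 𝓝ˢ (Set.diagonal (κ → X)) := by
    rw [mem_nhdsSet_iff_forall]
    rintro ⟨c, c'⟩ hcc
    obtain rfl : c = c' := hcc
    by_cases hc : c ∈ K
    · exact Filter.mem_of_superset (hN c hc) fun q hq _ => hq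
    · have h2 : {q : (κ → X) × (κ → X) | q.1 ∈ Kᶜ} ∈ 𝓝 (c, c) :=
        (hK.isOpen_compl.preimage continuous_fst).mem_nhds hc
      exact Filter.mem_of_superset h2 fun q hq hq' => absurd hq' hq
  rw [nhdsSet_diagonal_eq_uniformity, Pi.uniformity, Filter.mem_iInf_of_finite] at h1
  rw [nhdsSet_diagonal_eq_uniformity]
  obtain ⟨t, ht, hNt⟩ := h1
  choose V hV hVt using ht
  refine ⟨⋂ i, V i, Filter.iInter_mem.2 hV, fun c hc c' hcc' => ?_⟩
  have h2 : (c, c') ∈ N' := by
    rw [hNt]
    refine Set.mem_iInter.2 fun i => hVt i ?_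
    exact Set.mem_iInter.1 (hcc' i) i
  exact h2 hc

namespace LieStep

variable {P P' : DSys} {l : ℕ} (L : LieStep P P' l)

/-- an open neighbourhood of the graph of the projection contains the graphs of small
perturbations -/
theorem exists_near_graph {U : Set (P.X × P'.X)} (hU : IsOpen U) (h : ∀ x, (x, L.fac.π x) ∈ U) :
    ∃ W' ∈ 𝓝ˢ (Set.diagonal P'.X), ∀ x z, (L.fac.π x, z) ∈ W' → (x, z) ∈ U := by
  have hc : Continuous fun q : P.X × P'.X => (L.fac.π q.1, q.2) :=
    (L.fac.cont.comp continuous_fst).prodMk continuous_snd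
  have hcomp : IsCompact ((fun q : P.X × P'.X => (L.fac.π q.1, q.2)) '' Uᶜ) :=
    hU.isClosed_compl.isCompact.image hc
  refine ⟨((fun q : P.X × P'.X => (L.fac.π q.1, q.2)) '' Uᶜ)ᶜ, ?_, ?_⟩
  · refine hcomp.isClosed.isOpen_compl.mem_nhdsSet.2 ?_
    rintro ⟨y, z⟩ hyz ⟨⟨x, z'⟩, hx, he⟩
    obtain rfl : y = z := hyz
    simp only [Prod.mk.injEq] at he
    obtain ⟨he1, rfl⟩ := he
    subst he1
    exact hx (h x)
  · intro x z hxz
    by_contra hn
    exact hxz ⟨(x, z), hn, rfl⟩

/-- an equivariant continuous map over a homeomorphism is a homeomorphism -/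
theorem exists_homeo {h : P.X → P.X} (hc : Continuous h)
    (hb : ∀ (b : L.B) x, h (L.act.hom b x) = L.act.hom b (h x)) (g : P'.X ≃ₜ P'.X)
    (hg : ∀ x, L.fac.π (h x) = g (L.fac.π x)) : ∃ H : P.X ≃ₜ P.X, ∀ x, H x = h x := by
  have hinj : Function.Injective h := by
    intro x y hxy
    have h1 : L.fac.π x = L.fac.π y := by
      apply g.injective
      rw [← hg, ← hg, hxy]
    obtain ⟨b, rfl⟩ := (L.fib x y).1 h1
    rw [hb] at hxy
    rw [L.act.free _ _ hxy.symm, L.act.hom_one]
  have hsurj : Function.Surjective h := by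
    intro z
    obtain ⟨x, hx⟩ := L.fac.surj (g.symm (L.fac.π z))
    have h1 : L.fac.π (h x) = L.fac.π z := by rw [hg, hx, g.apply_symm_apply]
    obtain ⟨b, hb'⟩ := (L.fib _ _).1 h1
    exact ⟨L.act.hom b x, by rw [hb, hb']⟩
  have hc' : Continuous (Equiv.ofBijective h ⟨hinj, hsurj⟩) := hc
  exact ⟨hc'.homeoOfEquivCompactToT2, fun x => rfl⟩

section defect
variable {κ : Type} [Fintype κ] [DecidableEq κ]

theorem altP_eraseNone (m : Finset κ → L.B) :
    altP (Finset.univ : Finset (Option κ)) (fun S => m S.eraseNone) = 1 := by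
  have h5 : (Finset.univ : Finset (Option κ)) = Finset.insertNone Finset.univ := by
    ext o; cases o <;> simp
  rw [h5, altP_insertNone, mul_inv_eq_one]
  refine altP_congr fun A _ => ?_
  rw [Finset.eraseNone_map_some, Finset.eraseNone_insertNone]

theorem altP_upper (m : Finset κ → L.B) :
    altP (Finset.univ : Finset (Option κ)) (fun S => if none ∈ S then m S.eraseNone else 1) =
      (altP Finset.univ m)⁻¹ := by
  have h5 : (Finset.univ : Finset (Option κ)) = Finset.insertNone Finset.univ := by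
    ext o; cases o <;> simp
  rw [h5, altP_insertNone]
  have h1 : altP (Finset.univ : Finset κ) (fun A => (fun S : Finset (Option κ) =>
      if none ∈ S then m S.eraseNone else 1) (A.map Function.Embedding.some)) = 1 := by
    refine (altP_congr fun A _ => ?_).trans (altP_one (B := L.B) (Finset.univ : Finset κ))
    have hn : none ∉ A.map Function.Embedding.some := by simp
    simp only [hn, if_false]
  rw [h1, one_mul]
  congr 1
  refine altP_congr fun A _ => ?_
  have hn : none ∈ Finset.insertNone A := by simp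
  simp only [hn, if_true, Finset.eraseNone_insertNone]

/-- the projection of the pair cube -/
theorem proj_pair {h : P.X → P.X} {g : P'.X → P'.X} (hg : ∀ x, L.fac.π (h x) = g (L.fac.π x))
    (c : Finset κ → P.X) :
    (fun S => L.fac.π (pairCube c (fun S => h (c S)) S)) =
      pairCube (fun S => L.fac.π (c S)) (fun S => g (L.fac.π (c S))) := by
  funext S
  by_cases hS : none ∈ S
  · rw [pairCube_of_mem hS, pairCube_of_mem hS, hg]
  · rw [pairCube_of_notMem hS, pairCube_of_notMem hS]

theorem proj_pair_mem {h : P.X → P.X} {g : P'.X → P'.X} (hg : ∀ x, L.fac.π (h x) = g (L.fac.π x))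
    (hT : HalfTransl P'.T g) {c : Finset κ → P.X} (hc : (fun S => L.fac.π (c S)) ∈ Cub P'.T κ) :
    (fun S => L.fac.π (pairCube c (fun S => h (c S)) S)) ∈ Cub P'.T (Option κ) := by
  rw [L.proj_pair hg]
  exact hT _ _ hc

/-- the defect of `(c, h c)` depends on the projection of `c` only -/
theorem dfc_pair_eq (hκ : Fintype.card (Option κ) = l + 1) {h : P.X → P.X} {g : P'.X → P'.X}
    (hb : ∀ (b : L.B) x, h (L.act.hom b x) = L.act.hom b (h x))
    (hg : ∀ x, L.fac.π (h x) = g (L.fac.π x)) (hT : HalfTransl P'.T g) {c c₁ : Finset κ → P.X}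
    (hc : (fun S => L.fac.π (c S)) ∈ Cub P'.T κ)
    (hcc : (fun S => L.fac.π (c S)) = fun S => L.fac.π (c₁ S)) :
    L.dfc (pairCube c₁ (fun S => h (c₁ S))) = L.dfc (pairCube c (fun S => h (c S))) := by
  have h1 : ∀ S, ∃ b : L.B, L.act.hom b (c S) = c₁ S := fun S =>
    (L.fib _ _).1 (congrFun hcc S)
  choose m hm using h1
  have h2 : pairCube c₁ (fun S => h (c₁ S)) =
      L.cmul (fun S => m S.eraseNone) (pairCube c (fun S => h (c S))) := by
    funext S
    by_cases hS : none ∈ S
    · rw [pairCube_of_mem hS, cmul, pairCube_of_mem hS, ← hm, hb]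
    · rw [pairCube_of_notMem hS, cmul, pairCube_of_notMem hS, ← hm]
  rw [h2, L.dfc_cmul hκ _ (L.proj_pair_mem hg hT hc), L.altP_eraseNone, one_mul]

/-- the defect of `(c, c')` is small if `c'` is close to the cube `c` -/
theorem exists_dfc_small (hκ : Fintype.card (Option κ) = l + 1) {O : Set L.B}
    (hO : O ∈ 𝓝 (1 : L.B)) : ∃ V ∈ 𝓝ˢ (Set.diagonal P.X), ∀ c ∈ Cub P.T κ,
      ∀ c' : Finset κ → P.X, (∀ S, (c S, c' S) ∈ V) →
        (fun S => L.fac.π (pairCube c c' S)) ∈ Cub P'.T (Option κ) →
          L.dfc (pairCube c c') ∈ O := by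
  have hcont : Continuous fun q : (Finset κ → P.X) × (Finset κ → P.X) => pairCube q.1 q.2 := by
    refine continuous_pi fun S => ?_
    by_cases hS : none ∈ S
    · have h1 : (fun q : (Finset κ → P.X) × (Finset κ → P.X) => pairCube q.1 q.2 S) =
          fun q => q.2 S.eraseNone := by
        funext q; rw [pairCube_of_mem hS]
      rw [h1]
      exact (continuous_apply _).comp continuous_snd
    · have h1 : (fun q : (Finset κ → P.X) × (Finset κ → P.X) => pairCube q.1 q.2 S) =
          fun q => q.1 S.eraseNone := by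
        funext q; rw [pairCube_of_notMem hS]
      rw [h1]
      exact (continuous_apply _).comp continuous_fst
  have h1 := exists_near_pi (K := Cub P.T κ) isClosed_Cub
    (N := {q | (fun S => L.fac.π (pairCube q.1 q.2 S)) ∈ Cub P'.T (Option κ) →
      L.dfc (pairCube q.1 q.2) ∈ O}) ?_
  · obtain ⟨V, hV, h⟩ := h1
    exact ⟨V, hV, fun c hc c' hcc' h2 => h c hc c' hcc' h2⟩
  · intro c hc
    have h2 : pairCube c c ∈ Cub P.T (Option κ) := pairCube_diag hc
    have h3 : (fun S => L.fac.π (pairCube c c S)) ∈ Cub P'.T (Option κ) := L.proj_mem h2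
    have h4 := L.continuousOn_dfc hκ (pairCube c c) h3
    rw [ContinuousWithinAt, (L.dfc_eq_one_iff hκ h3).2 h2] at h4
    have h5 : ∀ᶠ p in 𝓝 (pairCube c c), p ∈ {p : Finset (Option κ) → P.X |
        (fun S => L.fac.π (p S)) ∈ Cub P'.T (Option κ)} → L.dfc p ∈ O :=
      eventually_nhdsWithin_iff.1 (h4.eventually hO)
    exact (hcont.continuousAt (x := (c, c))).eventually h5

/-- a function of cubes of `P'` whose composition with the projection is continuous -/
theorem continuousOn_of_comp {Z : Type*} [TopologicalSpace Z] {δ : (Finset κ → P'.X) → Z}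
    {K : Set (Finset κ → P'.X)}
    (h : ContinuousOn (fun c : Finset κ → P.X => δ fun S => L.fac.π (c S))
      {c | (fun S => L.fac.π (c S)) ∈ K}) : ContinuousOn δ K := by
  intro c' hc'
  obtain ⟨c, rfl⟩ : ∃ c : Finset κ → P.X, (fun S => L.fac.π (c S)) = c' :=
    ⟨fun S => (L.fac.surj (c' S)).choose, funext fun S => (L.fac.surj (c' S)).choose_spec⟩
  have h1 := h c hc'
  have hopen : IsOpenMap fun c : Finset κ → P.X => fun S => L.fac.π (c S) :=
    IsOpenMap.piMap (fun _ => L.isOpenMap_fac) (by simp)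
  have hcont : Continuous fun c : Finset κ → P.X => fun S => L.fac.π (c S) :=
    continuous_pi fun S => L.fac.cont.comp (continuous_apply S)
  have h2 : map (fun c : Finset κ → P.X => fun S => L.fac.π (c S))
      (𝓝[{c | (fun S => L.fac.π (c S)) ∈ K}] c) = 𝓝[K] fun S => L.fac.π (c S) := by
    rw [nhdsWithin, nhdsWithin, ← hopen.map_nhds_eq hcont.continuousAt]
    exact Filter.map_inf_principal_preimage
  rw [ContinuousWithinAt, ← h2, tendsto_map'_iff]
  exact h1

end defect

/-- the base of a Lie step is minimal -/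
theorem isMin' (L : LieStep P P' l) : IsMin P'.T := by
  intro y
  obtain ⟨x, rfl⟩ := L.fac.surj y
  have h1 : DenseRange fun n : ℤ => (P.T ^ n) x := L.ord.min x
  have h2 := L.fac.surj.denseRange.comp h1 L.fac.cont
  have h3 : (L.fac.π ∘ fun n : ℤ => (P.T ^ n) x) = fun n : ℤ => (P'.T ^ n) (L.fac.π x) := by
    funext n
    exact equi_zpow L.fac.equi n x
  rw [h3] at h2
  exact h2

/-- the correction making the defect trivial -/
theorem exists_beta {V₀ : Set L.B} (hV₀ : V₀ ∈ 𝓝 (1 : L.B)) : ∃ O ∈ 𝓝 (1 : L.B),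
    ∀ (h : P.X → P.X) (g : P'.X → P'.X), Continuous h →
      (∀ (b : L.B) x, h (L.act.hom b x) = L.act.hom b (h x)) →
      (∀ x, L.fac.π (h x) = g (L.fac.π x)) → HalfTransl P'.T g →
      (∀ c ∈ Cub P.T (Fin l), L.dfc (pairCube c fun S => h (c S)) ∈ O) →
      ∃ β : P'.X → L.B, Continuous β ∧ (∀ y, β y ∈ V₀) ∧ ∀ c ∈ Cub P.T (Fin l),
        altP Finset.univ (fun A => β (L.fac.π (c A))) = L.dfc (pairCube c fun S => h (c S)) := by
  classical
  have hκ : Fintype.card (Option (Fin l)) = l + 1 := by simp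
  rcases circle_closed_sub L.B L.closed with hB | ⟨O, hO, hOB⟩
  · -- the full circle
    set e : ℝ → L.B := fun t => ⟨Circle.exp t, by rw [hB]; trivial⟩ with he
    have hec : Continuous e := Circle.exp.continuous.subtype_mk _
    have he0 : e 0 = 1 := Subtype.ext Circle.exp_zero
    obtain ⟨r, hr, hrV⟩ : ∃ r > 0, ∀ t : ℝ, |t| < r → e t ∈ V₀ := by
      have h1 : e ⁻¹' V₀ ∈ 𝓝 (0 : ℝ) := hec.continuousAt (he0 ▸ hV₀)
      obtain ⟨r, hr, h2⟩ := Metric.mem_nhds_iff.1 h1
      refine ⟨r, hr, fun t ht => h2 ?_⟩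
      rw [Metric.mem_ball, Real.dist_eq, sub_zero]
      exact ht
    obtain ⟨M, hM, hMr, hM1⟩ : ∃ M > 0, 2 * M < r ∧ M ≤ 1 := by
      refine ⟨min (r / 3) 1, by positivity, ?_, min_le_right _ _⟩
      have := min_le_left (r / 3) 1
      linarith
    obtain ⟨U, hU, hUM⟩ := circle_arg_small hM
    have hπ : M < Real.pi / 2 := by
      have := Real.pi_gt_three
      linarith
    refine ⟨Subtype.val ⁻¹' U, continuous_subtype_val.continuousAt hU, ?_⟩
    intro h g hc hb hg hT hO
    set δ₁ : (Finset (Fin l) → P.X) → ℝ := fun c =>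
      Complex.arg (((L.dfc (pairCube c fun S => h (c S)) : L.B) : Circle) : ℂ) with hδ₁
    have hsmall : ∀ c ∈ Cub P.T (Fin l), |δ₁ c| < M := fun c hc => hUM _ (hO c hc)
    set s : P'.X → P.X := Function.surjInv L.fac.surj with hs
    have hπs : ∀ y, L.fac.π (s y) = y := Function.surjInv_eq L.fac.surj
    set δ : (Finset (Fin l) → P'.X) → ℝ := fun c' => δ₁ fun S => s (c' S) with hδ
    have hmem : ∀ c : Finset (Fin l) → P.X, (fun S => L.fac.π (c S)) ∈ Cub P'.T (Fin l) →
        c ∈ Cub P.T (Fin l) := fun c h => L.mem_of_proj_mem (by simp) h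
    have hδeq : ∀ c ∈ Cub P.T (Fin l), δ (fun S => L.fac.π (c S)) = δ₁ c := by
      intro c hc
      simp only [hδ, hδ₁]
      rw [L.dfc_pair_eq hκ hb hg hT (L.proj_mem hc) (c₁ := fun S => s (L.fac.π (c S)))]
      funext S
      rw [hπs]
    have hcontδ : ContinuousOn δ (Cub P'.T (Fin l)) := by
      refine L.continuousOn_of_comp ?_
      have h1 : ContinuousOn δ₁ {c | (fun S => L.fac.π (c S)) ∈ Cub P'.T (Fin l)} := by
        have h2 : ContinuousOn (fun c : Finset (Fin l) → P.X =>
            (((L.dfc (pairCube c fun S => h (c S)) : L.B) : Circle) : ℂ))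
            {c | (fun S => L.fac.π (c S)) ∈ Cub P'.T (Fin l)} := by
          have hcoe : Continuous fun b : L.B => (((b : L.B) : Circle) : ℂ) :=
            continuous_subtype_val.comp continuous_subtype_val
          refine hcoe.comp_continuousOn ?_
          refine (L.continuousOn_dfc hκ).comp (Continuous.continuousOn ?_) ?_
          · refine continuous_pi fun S => ?_
            by_cases hS : none ∈ S
            · have h1 : (fun c : Finset (Fin l) → P.X => pairCube c (fun S => h (c S)) S) =
                  fun c => h (c S.eraseNone) := by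
                funext q; rw [pairCube_of_mem hS]
              rw [h1]
              exact hc.comp (continuous_apply _)
            · have h1 : (fun c : Finset (Fin l) → P.X => pairCube c (fun S => h (c S)) S) =
                  fun c => c S.eraseNone := by
                funext q; rw [pairCube_of_notMem hS]
              rw [h1]
              exact continuous_apply _
          · intro c hc
            exact L.proj_pair_mem hg hT hc
        intro c hc
        have h3 := h2 c hc
        have h4 : ContinuousAt Complex.arg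
            (((L.dfc (pairCube c fun S => h (c S)) : L.B) : Circle) : ℂ) := by
          apply Complex.continuousAt_arg
          rw [Complex.mem_slitPlane_iff_arg]
          refine ⟨?_, Circle.coe_ne_zero _⟩
          intro h5
          have h6 := hsmall c (hmem c hc)
          simp only [hδ₁] at h6
          rw [h5, abs_of_pos Real.pi_pos] at h6
          linarith [Real.pi_pos]
        exact ContinuousAt.comp_continuousWithinAt (g := Complex.arg) h4 h3
      refine h1.congr fun c hc => hδeq c (hmem c hc)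
    have hadd : ∀ (i : Fin l) (k : Fin l → ℤ) (m : ℤ) (y : P'.X),
        δ (dcube P'.T 0 (Function.update k i (k i + m)) y) =
          δ (dcube P'.T 0 k y) + δ (dcube P'.T 0 (Function.update k i m) ((P'.T ^ k i) y)) := by
      intro i k m y
      obtain ⟨x, rfl⟩ := L.fac.surj y
      have hdc : ∀ (k : Fin l → ℤ) (x : P.X), dcube P'.T 0 k (L.fac.π x) =
          fun S => L.fac.π (dcube P.T 0 k x S) := by
        intro k x
        funext S
        exact (equi_zpow L.fac.equi _ x).symm
      have hdm : ∀ (k : Fin l → ℤ) (x : P.X), dcube P.T 0 k x ∈ Cub P.T (Fin l) :=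
        fun k x => dcube_mem 0 k x
      rw [← equi_zpow L.fac.equi, hdc, hdc, hdc, hδeq _ (hdm _ _), hδeq _ (hdm _ _),
        hδeq _ (hdm _ _)]
      set c := dcube P.T 0 k x with hcdef
      set c₁ := dcube P.T 0 (Function.update k i m) ((P.T ^ k i) x) with hc₁
      set c₂ := dcube P.T 0 (Function.update k i (k i + m)) x with hc₂
      have e1 : ∀ S, i ∉ S → c₂ S = c S := by
        intro S hS
        simp only [hc₂, hcdef, dcube, expo, zero_add]
        rw [Finset.sum_update_of_notMem hS]
      have e2 : ∀ S, i ∈ S → c₂ S = c₁ S := by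
        intro S hS
        simp only [hc₂, hc₁, dcube, expo, zero_add]
        rw [Finset.sum_update_of_mem hS, Finset.sum_update_of_mem hS, ← Homeomorph.mul_apply,
          ← zpow_add]
        congr 2
        ring
      have e3 : ∀ A, i ∉ A → c (insert i A) = c₁ A := by
        intro A hA
        simp only [hcdef, hc₁, dcube, expo, zero_add]
        rw [Finset.sum_insert hA, Finset.sum_update_of_notMem hA, add_comm, zpow_add]
        rfl
      have h1 : glue (some i) (pairCube c fun S => h (c S)) (pairCube c₁ fun S => h (c₁ S)) =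
          pairCube c₂ fun S => h (c₂ S) := by
        funext S
        have hiff : i ∈ S.eraseNone ↔ some i ∈ S := Finset.mem_eraseNone
        by_cases hi : some i ∈ S
        · have hi' := hiff.2 hi
          simp only [glue, hi, if_true]
          by_cases hS : none ∈ S
          · rw [pairCube_of_mem hS, pairCube_of_mem hS, e2 _ hi']
          · rw [pairCube_of_notMem hS, pairCube_of_notMem hS, e2 _ hi']
        · have hi' : i ∉ S.eraseNone := fun hh => hi (hiff.1 hh)
          simp only [glue, hi, if_false]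
          by_cases hS : none ∈ S
          · rw [pairCube_of_mem hS, pairCube_of_mem hS, e1 _ hi']
          · rw [pairCube_of_notMem hS, pairCube_of_notMem hS, e1 _ hi']
      have h2 := L.dfc_glue hκ (some i) (p := pairCube c fun S => h (c S))
        (p' := pairCube c₁ fun S => h (c₁ S)) (L.proj_pair_mem hg hT (L.proj_mem (hdm _ _)))
        (L.proj_pair_mem hg hT (L.proj_mem (hdm _ _))) ?_
      · rw [h1] at h2
        have s1 := abs_lt.1 (hsmall c (hdm _ _))
        have s2 := abs_lt.1 (hsmall c₁ (hdm _ _))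
        simp only [hδ₁] at s1 s2 ⊢
        rw [h2, Subgroup.coe_mul, Circle.coe_mul]
        refine Complex.arg_mul (Circle.coe_ne_zero _) (Circle.coe_ne_zero _) ⟨?_, ?_⟩ <;> linarith
      · intro A hA
        have hA' : i ∉ A.eraseNone := fun hh => hA (Finset.mem_eraseNone.1 hh)
        have hins : (insert (some i) A).eraseNone = insert i A.eraseNone := by
          ext k; simp [Finset.mem_eraseNone]
        by_cases hS : none ∈ A
        · have hS' : none ∈ insert (some i) A := Finset.mem_insert_of_mem hS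
          rw [pairCube_of_mem hS, pairCube_of_mem hS', hins, e3 _ hA']
        · have hS' : none ∉ insert (some i) A := by simp [hS]
          rw [pairCube_of_notMem hS, pairCube_of_notMem hS', hins, e3 _ hA']
    have : Nonempty (Fin l) := ⟨⟨0, L.pos⟩⟩
    obtain ⟨φ, hφ, hφM⟩ := coboundary_orbit L.isMin' hcontδ hadd
    have hφs := hφM M fun c' hc' => by
      obtain ⟨c, rfl⟩ : ∃ c : Finset (Fin l) → P.X, (fun S => L.fac.π (c S)) = c' :=
        ⟨fun S => s (c' S), funext fun S => hπs _⟩
      rw [hδeq c (hmem c hc')]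
      exact (hsmall c (hmem c hc')).le
    refine ⟨fun y => e (φ y), hec.comp φ.continuous, fun y => hrV _ ((hφs y).trans_lt hMr), ?_⟩
    intro c hc'
    have h1 := hφ _ (L.proj_mem hc')
    rw [hδeq c hc'] at h1
    apply Subtype.ext
    have h2 : (((L.dfc (pairCube c fun S => h (c S)) : L.B)) : Circle) = Circle.exp (δ₁ c) :=
      (Circle.exp_arg _).symm
    rw [h2, h1]
    have h3 : ∀ z : L.B, ((z : L.B) : Circle) = L.B.subtype z := fun z => rfl
    rw [h3, altP, map_prod, altSum, Finset.powerset_univ]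
    have h4 : ∀ (S : Finset (Finset (Fin l))) (f : Finset (Fin l) → ℝ),
        Circle.exp (∑ A ∈ S, f A) = ∏ A ∈ S, Circle.exp (f A) := by
      intro S f
      induction S using Finset.induction_on with
      | empty => simp
      | insert a S ha ih => rw [Finset.sum_insert ha, Finset.prod_insert ha, Circle.exp_add, ih]
    rw [h4]
    refine Finset.prod_congr rfl fun A _ => ?_
    rw [map_zpow]
    have h5 : L.B.subtype (e (φ (L.fac.π (c A)))) = Circle.exp (φ (L.fac.π (c A))) := rfl
    rw [h5, ← Circle.exp_zsmul, zsmul_eq_mul]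
    push_cast
    rfl
  · -- the discrete case
    refine ⟨Subtype.val ⁻¹' O, continuous_subtype_val.continuousAt hO, ?_⟩
    intro h g hc hb hg hT hO'
    refine ⟨fun _ => 1, continuous_const, fun _ => mem_of_mem_nhds hV₀, fun c hc => ?_⟩
    rw [altP_one]
    exact (Subtype.ext (hOB _ (hO' c hc) (L.dfc _).2)).symm

/-- **the lifting lemma** : small translations of the base lift to small translations -/
theorem lifting {W : Set (P.X × P.X)} (hW : W ∈ 𝓝ˢ (Set.diagonal P.X)) :
    ∃ W' ∈ 𝓝ˢ (Set.diagonal P'.X), ∀ g : P'.X ≃ₜ P'.X, IsTransl P'.T g → Near W' g →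
      ∃ gh : P.X ≃ₜ P.X, IsTransl P.T gh ∧ (∀ x, L.fac.π (gh x) = g (L.fac.π x)) ∧
        Near W gh := by
  classical
  have hκ : Fintype.card (Option (Fin l)) = l + 1 := by simp
  obtain ⟨n, f, hf, hn⟩ := L.exists_eigen
  obtain ⟨D, σ, hD, hDd, hσc, hσπ, hσb, hσ1⟩ := L.near_ident f hf hn
  obtain ⟨V, hV, hVW, _, hVV⟩ := exists_comp_nhdsSet hW
  obtain ⟨O, hO, hβ⟩ := L.exists_beta (L.act.eventually_near hV)
  obtain ⟨V₁, hV₁, hsm⟩ := L.exists_dfc_small (κ := Fin l) hκ hO
  obtain ⟨V₂, hV₂o, hV₂d, hV₂sub⟩ := mem_nhdsSet_iff_exists.1 (Filter.inter_mem hV hV₁)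
  set U : Set (P.X × P'.X) := D ∩ (fun q => (q.1, σ q)) ⁻¹' V₂ with hUdef
  have hUo : IsOpen U :=
    (continuous_fst.continuousOn.prodMk hσc).isOpen_inter_preimage hD hV₂o
  have hUd : ∀ x, (x, L.fac.π x) ∈ U := by
    intro x
    refine ⟨hDd x, ?_⟩
    change (x, σ (x, L.fac.π x)) ∈ V₂
    rw [hσ1]
    exact hV₂d rfl
  obtain ⟨W', hW', hWU⟩ := L.exists_near_graph hUo hUd
  refine ⟨W', hW', fun g hg hgW => ?_⟩
  have hgU : ∀ x, (x, g (L.fac.π x)) ∈ U := fun x => hWU _ _ (hgW (L.fac.π x))
  set h : P.X → P.X := fun x => σ (x, g (L.fac.π x)) with hh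
  have hhc : Continuous h := by
    rw [← continuousOn_univ]
    have h1 : Continuous fun x => (x, g (L.fac.π x)) :=
      continuous_id.prodMk (g.continuous.comp L.fac.cont)
    exact hσc.comp h1.continuousOn fun x _ => (hgU x).1
  have hhb : ∀ (b : L.B) x, h (L.act.hom b x) = L.act.hom b (h x) := by
    intro b x
    have h1 := (hσb b x (g (L.fac.π x)) (hgU x).1).2
    simp only [hh]
    rw [L.π_hom]
    exact h1
  have hhg : ∀ x, L.fac.π (h x) = g (L.fac.π x) := fun x => hσπ _ (hgU x).1
  have hhV : ∀ x, (x, h x) ∈ V₂ := fun x => (hgU x).2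
  obtain ⟨β, hβc, hβV, hβd⟩ := hβ h g hhc hhb hhg hg.1 fun c hc =>
    hsm c hc _ (fun S => (hV₂sub (hhV (c S))).2) (L.proj_pair_mem hhg hg.1 (L.proj_mem hc))
  set k : P.X → P.X := fun x => L.act.hom (β (L.fac.π x)) (h x) with hk
  have hkc : Continuous k := L.act.cont.comp ((hβc.comp L.fac.cont).prodMk hhc)
  have hkb : ∀ (b : L.B) x, k (L.act.hom b x) = L.act.hom b (k x) := by
    intro b x
    simp only [hk]
    rw [L.π_hom, hhb, ← L.act.hom_mul, ← L.act.hom_mul, mul_comm]
  have hkg : ∀ x, L.fac.π (k x) = g (L.fac.π x) := by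
    intro x
    simp only [hk]
    rw [L.π_hom, hhg]
  obtain ⟨K, hK⟩ := L.exists_homeo hkc hkb g hkg
  have hKg : ∀ x, L.fac.π (K x) = g (L.fac.π x) := fun x => by rw [hK, hkg]
  refine ⟨K, L.isTransl_of_level hg hKg fun c hc => ?_, hKg, fun x => ?_⟩
  · have h1 : pairCube c (fun S => K (c S)) =
        L.cmul (fun S => if none ∈ S then β (L.fac.π (c S.eraseNone)) else 1)
          (pairCube c fun S => h (c S)) := by
      funext S
      by_cases hS : none ∈ S
      · rw [pairCube_of_mem hS, cmul, pairCube_of_mem hS, if_pos hS, hK]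
      · rw [pairCube_of_notMem hS, cmul, pairCube_of_notMem hS, if_neg hS, L.act.hom_one]
    have h2 := L.proj_pair_mem hhg hg.1 (L.proj_mem hc)
    have h3 : (fun S => L.fac.π (pairCube c (fun S => K (c S)) S)) ∈ Cub P'.T (Option (Fin l)) :=
      L.proj_pair_mem hKg hg.1 (L.proj_mem hc)
    rw [← L.dfc_eq_one_iff hκ h3, h1, L.dfc_cmul hκ _ h2,
      L.altP_upper fun A => β (L.fac.π (c A)), hβd c hc, inv_mul_cancel]
  · rw [hK]
    exact hVV _ _ _ (hV₂sub (hhV x)).1 (hβV (L.fac.π x) (h x))

end LieStep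

end MP_e326dc_an
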