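import Pool.Agent.Lib.MP_e326dc_an.E6.Defect

set_option autoImplicit false
set_option linter.unusedSectionVars false

/-!
# MP_e326dc_an, block E6 : a lift of a translation which is a translation in dimension `l` is one
-/

open Filter Topology

namespace MP_e326dc_an

section alt
variable {ι : Type*} [DecidableEq ι] {B : Type*} [CommGroup B]

theorem altP_subtype (J : Finset ι) (f : Finset ι → B) :
    altP (Finset.univ : Finset J) (fun A => f (A.map (Function.Embedding.subtype _))) = altP J f := by
  unfold altP
  refine Finset.prod_bij (fun A _ => A.map (Function.Embedding.subtype _)) ?_ ?_ ?_ ?_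
  · intro A _
    rw [Finset.mem_powerset]
    intro i hi
    obtain ⟨a, _, rfl⟩ := Finset.mem_map.mp hi
    exact a.2
  · intro A _ A' _ h
    exact Finset.map_injective _ h
  · intro A hA
    refine ⟨A.subtype (· ∈ J), Finset.mem_powerset.mpr (Finset.subset_univ _), ?_⟩
    rw [Finset.subtype_map]
    exact Finset.filter_true_of_mem fun i hi => Finset.mem_powerset.mp hA hi
  · intro A _
    rw [Finset.card_map]

theorem altP_map_some (J : Finset ι) (f : Finset (Option ι) → B) :
    altP (J.map Function.Embedding.some) f = altP J fun A => f (A.map Function.Embedding.some) := by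
  unfold altP
  symm
  refine Finset.prod_bij (fun A _ => A.map Function.Embedding.some) ?_ ?_ ?_ ?_
  · intro A hA
    rw [Finset.mem_powerset] at hA ⊢
    exact Finset.map_subset_map.mpr hA
  · intro A _ A' _ h
    exact Finset.map_injective _ h
  · intro A hA
    rw [Finset.mem_powerset] at hA
    refine ⟨A.eraseNone, ?_, ?_⟩
    · rw [Finset.mem_powerset]
      intro i hi
      have h1 : some i ∈ A := by simpa using hi
      have h2 := hA h1
      simpa using h2
    · rw [Finset.map_some_eraseNone, Finset.erase_eq_of_notMem]
      intro h
      have := hA h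
      simp at this
  · intro A _
    rw [Finset.card_map]

theorem altP_insertNone (J : Finset ι) (f : Finset (Option ι) → B) :
    altP (Finset.insertNone J) f = altP J (fun A => f (A.map Function.Embedding.some)) *
      (altP J fun A => f (Finset.insertNone A))⁻¹ := by
  have h : Finset.insertNone J = insert none (J.map Function.Embedding.some) := by
    ext o; cases o <;> simp
  rw [h, altP_insert (by simp), altP_map_some, altP_map_some]
  congr 2
  refine altP_congr fun A _ => ?_
  congr 1
  ext o; cases o <;> simp

theorem altP_insert' {i : ι} {J : Finset ι} (hi : i ∉ J) (S₀ : Finset ι) (m : Finset ι → B) :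
    altP (insert i J) (fun A => m (S₀ ∪ A)) =
      altP J (fun A => m (S₀ ∪ A)) * (altP J fun A => m (insert i S₀ ∪ A))⁻¹ := by
  rw [altP_insert hi]
  congr 2
  refine altP_congr fun A _ => ?_
  rw [Finset.union_insert, Finset.insert_union]

end alt

namespace LieStep

variable {P P' : DSys} {l : ℕ} (L : LieStep P P' l)

/-- the hypothesis in dimension `l` for an arbitrary index type -/
theorem pair_mem_of_card (_L : LieStep P P' l) {h : P.X → P.X}
    (hl : ∀ c ∈ Cub P.T (Fin l), pairCube c (fun S => h (c S)) ∈ Cub P.T (Option (Fin l)))
    {κ : Type} [Fintype κ] [DecidableEq κ] (hκ : Fintype.card κ = l) {c : Finset κ → P.X}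
    (hc : c ∈ Cub P.T κ) : pairCube c (fun S => h (c S)) ∈ Cub P.T (Option κ) := by
  obtain ⟨e⟩ : Nonempty (κ ≃ Fin l) := ⟨(Fintype.equivFin κ).trans (finCongr hκ)⟩
  have h1 : AffMap fun A : Finset (Fin l) => A.map e.symm.toEmbedding := by
    refine affMap_of_coord fun i => ?_
    right; right; left
    exact ⟨e i, fun A => by simp⟩
  have h2 := hl _ (Cub_comp h1 hc)
  have h3 : AffMap fun A : Finset (Option κ) => A.map (Equiv.optionCongr e).toEmbedding := by
    refine affMap_of_coord fun o => ?_
    right; right; left
    refine ⟨(Equiv.optionCongr e).symm o, fun A => by simp⟩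
  have h4 := Cub_comp h3 h2
  have h5 : (fun A : Finset (Option κ) => pairCube (fun A => c (A.map e.symm.toEmbedding))
      (fun S => h (c (S.map e.symm.toEmbedding))) (A.map (Equiv.optionCongr e).toEmbedding)) =
      pairCube c (fun S => h (c S)) := by
    funext A
    have h6 : (A.map (Equiv.optionCongr e).toEmbedding).eraseNone.map e.symm.toEmbedding =
        A.eraseNone := by
      ext k
      rw [Finset.mem_map_equiv, Equiv.symm_symm, Finset.mem_eraseNone, Finset.mem_map_equiv,
        Finset.mem_eraseNone]
      have h7 : (Equiv.optionCongr e).symm (some (e k)) = some k := by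
        rw [Equiv.symm_apply_eq]; rfl
      rw [h7]
    have h8 : (Equiv.optionCongr e).symm none = none := rfl
    by_cases hA : none ∈ A
    · have hA' : none ∈ A.map (Equiv.optionCongr e).toEmbedding := by
        rw [Finset.mem_map_equiv, h8]; exact hA
      rw [pairCube_of_mem hA', pairCube_of_mem hA, h6]
    · have hA' : none ∉ A.map (Equiv.optionCongr e).toEmbedding := by
        rw [Finset.mem_map_equiv, h8]; exact hA
      rw [pairCube_of_notMem hA', pairCube_of_notMem hA, h6]
  rwa [h5] at h4

theorem halfTransl_of_level {h : P.X → P.X} {g : P'.X → P'.X} (hg : HalfTransl P'.T g)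
    (hlift : ∀ x, L.fac.π (h x) = g (L.fac.π x))
    (hl : ∀ c ∈ Cub P.T (Fin l), pairCube c (fun S => h (c S)) ∈ Cub P.T (Option (Fin l))) :
    HalfTransl P.T h := by
  intro ι _ _ c hc
  set q := pairCube c (fun S => h (c S)) with hq
  have hproj : (fun S => L.fac.π (q S)) ∈ Cub P'.T (Option ι) := by
    have h1 := hg ι _ (L.proj_mem hc)
    have h2 : (fun S => L.fac.π (q S)) =
        pairCube (fun S => L.fac.π (c S)) (fun S => g (L.fac.π (c S))) := by
      funext S
      by_cases hS : none ∈ S
      · rw [hq, pairCube_of_mem hS, pairCube_of_mem hS, hlift]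
      · rw [hq, pairCube_of_notMem hS, pairCube_of_notMem hS]
    rwa [h2]
  obtain ⟨d, hd, m, hm⟩ := L.exists_cube_of_proj hproj
  rw [hm]
  refine L.faceTriv_mem ?_ hd
  -- the lower facet
  have hlow : FaceTriv l (fun A : Finset ι => m (A.map Function.Embedding.some)) := by
    have hd₀ : (fun A : Finset ι => d (A.map Function.Embedding.some)) ∈ Cub P.T ι :=
      Cub_comp affMap_lo hd
    refine L.faceTriv_of_mem hd₀ ?_
    have h1 : L.cmul (fun A : Finset ι => m (A.map Function.Embedding.some))
        (fun A => d (A.map Function.Embedding.some)) = c := by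
      funext A
      have h2 := congrFun hm (A.map Function.Embedding.some)
      rw [hq, pairCube_lo] at h2
      exact h2.symm
    rwa [h1]
  -- faces of dimension `l`
  have hface : ∀ J S₀ : Finset ι, J.card = l → Disjoint S₀ J →
      altP J (fun A => m (Finset.insertNone (S₀ ∪ A))) =
        altP J (fun A => m ((S₀ ∪ A).map Function.Embedding.some)) := by
    intro J S₀ hJ hdis
    let ψ : Finset J → Finset ι := fun A => S₀ ∪ A.map (Function.Embedding.subtype _)
    have hψ : AffMap ψ := by
      refine affMap_of_coord fun i => ?_
      by_cases hi : i ∈ S₀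
      · left; intro A; exact Finset.mem_union_left _ hi
      · by_cases hiJ : i ∈ J
        · right; right; left
          refine ⟨⟨i, hiJ⟩, fun A => ?_⟩
          simp [ψ, hi, hiJ]
        · right; left
          intro A h
          rcases Finset.mem_union.mp h with h | h
          · exact hi h
          · obtain ⟨a, _, rfl⟩ := Finset.mem_map.mp h
            exact hiJ a.2
    have h1 := L.pair_mem_of_card hl (by simpa using hJ) (Cub_comp hψ hc)
    let Ψ : Finset (Option J) → Finset (Option ι) := fun A =>
      if none ∈ A then Finset.insertNone (ψ A.eraseNone)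
      else (ψ A.eraseNone).map Function.Embedding.some
    have hΨ : AffMap Ψ := by
      intro k
      obtain ⟨a, k', hk'⟩ := hψ (fun i => k (some i))
      refine ⟨a, fun o => o.elim (k none) k', fun A => ?_⟩
      have hA : ∑ j ∈ A, (Option.elim j (k none) k') =
          (if none ∈ A then k none else 0) + ∑ j ∈ A.eraseNone, k' j := by
        by_cases hn : none ∈ A
        · have h3 : A = Finset.insertNone A.eraseNone := by
            rw [Finset.insertNone_eraseNone, Finset.insert_eq_of_mem hn]
          conv_lhs => rw [h3]
          rw [Finset.sum_insertNone, if_pos hn]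
          rfl
        · have h3 : A = A.eraseNone.map Function.Embedding.some := by
            rw [Finset.map_some_eraseNone, Finset.erase_eq_of_notMem hn]
          conv_lhs => rw [h3]
          rw [Finset.sum_map, if_neg hn, zero_add]
          rfl
      rw [hA]
      by_cases hn : none ∈ A
      · simp only [Ψ, hn, if_true, Finset.sum_insertNone, hk']
        ring
      · simp only [Ψ, hn, if_false, Finset.sum_map, Function.Embedding.some_apply, hk']
        ring
    have h2 := Cub_comp hΨ hd
    have h3 : L.cmul (fun A => m (Ψ A)) (fun A => d (Ψ A)) =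
        pairCube (fun A => c (ψ A)) (fun A => h (c (ψ A))) := by
      funext A
      have h4 := congrFun hm (Ψ A)
      change L.act.hom (m (Ψ A)) (d (Ψ A)) = _
      have h5 : L.act.hom (m (Ψ A)) (d (Ψ A)) = q (Ψ A) := h4.symm
      rw [h5, hq]
      by_cases hn : none ∈ A
      · simp only [Ψ, hn, if_true]
        rw [pairCube_up, pairCube_of_mem hn]
      · simp only [Ψ, hn, if_false]
        rw [pairCube_lo, pairCube_of_notMem hn]
    have h4 := L.altP_eq_one_of_card (ι := Option J) (by simp [hJ]) h2 (h3 ▸ h1)
    have h5 : (Finset.univ : Finset (Option J)) = Finset.insertNone Finset.univ := by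
      ext o; cases o <;> simp
    have h6 : (fun A : Finset J => m (Ψ (A.map Function.Embedding.some))) =
        fun A => (fun C : Finset ι => m ((S₀ ∪ C).map Function.Embedding.some))
          (A.map (Function.Embedding.subtype _)) := by
      funext A
      have hn : none ∉ A.map Function.Embedding.some := by simp
      simp only [Ψ, hn, if_false, Finset.eraseNone_map_some]
      rfl
    have h7 : (fun A : Finset J => m (Ψ (Finset.insertNone A))) =
        fun A => (fun C : Finset ι => m (Finset.insertNone (S₀ ∪ C)))
          (A.map (Function.Embedding.subtype _)) := by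
      funext A
      have hn : none ∈ Finset.insertNone A := by simp
      simp only [Ψ, hn, if_true, Finset.eraseNone_insertNone]
      rfl
    have e1 : altP Finset.univ (fun A : Finset J => m (Ψ (A.map Function.Embedding.some))) =
        altP J (fun C => m ((S₀ ∪ C).map Function.Embedding.some)) := by
      rw [h6]
      exact altP_subtype J (fun C => m ((S₀ ∪ C).map Function.Embedding.some))
    have e2 : altP Finset.univ (fun A : Finset J => m (Ψ (Finset.insertNone A))) =
        altP J (fun C => m (Finset.insertNone (S₀ ∪ C))) := by
      rw [h7]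
      exact altP_subtype J (fun C => m (Finset.insertNone (S₀ ∪ C)))
    rw [h5, altP_insertNone, e1, e2, mul_inv_eq_one] at h4
    exact h4.symm
  intro J S₀ hJ hdis
  by_cases hn : none ∈ J
  · have hJ' : J = Finset.insertNone J.eraseNone := by
      rw [Finset.insertNone_eraseNone, Finset.insert_eq_of_mem hn]
    have hnS : none ∉ S₀ := fun h => Finset.disjoint_left.mp hdis h hn
    have hS' : S₀ = S₀.eraseNone.map Function.Embedding.some := by
      rw [Finset.map_some_eraseNone, Finset.erase_eq_of_notMem hnS]
    have hcard : J.eraseNone.card = l := by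
      have h1 := congrArg Finset.card hJ'
      rw [hJ, Finset.card_insertNone] at h1
      omega
    have hdis' : Disjoint S₀.eraseNone J.eraseNone := by
      rw [Finset.disjoint_left]
      intro i hi hi'
      exact Finset.disjoint_left.mp hdis (by simpa using hi) (by simpa using hi')
    have h1 := hface J.eraseNone S₀.eraseNone hcard hdis'
    rw [hJ', altP_insertNone, mul_inv_eq_one]
    have h2 : (fun A : Finset ι => m (S₀ ∪ A.map Function.Embedding.some)) =
        fun A => m ((S₀.eraseNone ∪ A).map Function.Embedding.some) := by
      funext A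
      rw [Finset.map_union, ← hS']
    have h3 : (fun A : Finset ι => m (S₀ ∪ Finset.insertNone A)) =
        fun A => m (Finset.insertNone (S₀.eraseNone ∪ A)) := by
      funext A
      congr 1
      ext o
      cases o with
      | none => simp
      | some i => simp
    rw [h2, h3, h1]
  · have hJ' : J = J.eraseNone.map Function.Embedding.some := by
      rw [Finset.map_some_eraseNone, Finset.erase_eq_of_notMem hn]
    have hcard : J.eraseNone.card = l + 1 := by
      have h1 := congrArg Finset.card hJ'
      rw [hJ, Finset.card_map] at h1
      omega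
    have hdis' : Disjoint S₀.eraseNone J.eraseNone := by
      rw [Finset.disjoint_left]
      intro i hi hi'
      exact Finset.disjoint_left.mp hdis (by simpa using hi) (by simpa using hi')
    have hlo := hlow J.eraseNone S₀.eraseNone hcard hdis'
    rw [hJ', altP_map_some]
    by_cases hnS : none ∈ S₀
    · -- the upper facet
      have h3 : (fun A : Finset ι => m (S₀ ∪ A.map Function.Embedding.some)) =
          fun A => m (Finset.insertNone (S₀.eraseNone ∪ A)) := by
        funext A
        congr 1
        ext o
        cases o with
        | none => simp [hnS]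
        | some i => simp
      rw [h3]
      obtain ⟨i, hi⟩ : J.eraseNone.Nonempty := by
        rw [← Finset.card_pos]; omega
      have hJi : J.eraseNone = insert i (J.eraseNone.erase i) := (Finset.insert_erase hi).symm
      have hni : i ∉ J.eraseNone.erase i := Finset.notMem_erase i _
      have hc1 : (J.eraseNone.erase i).card = l := by rw [Finset.card_erase_of_mem hi]; omega
      have hd1 : Disjoint S₀.eraseNone (J.eraseNone.erase i) :=
        hdis'.mono_right (Finset.erase_subset _ _)
      have hd2 : Disjoint (insert i S₀.eraseNone) (J.eraseNone.erase i) := by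
        rw [Finset.disjoint_insert_left]
        exact ⟨hni, hd1⟩
      rw [hJi] at hlo ⊢
      rw [altP_insert' hni S₀.eraseNone (fun C => m (Finset.insertNone C)), hface _ _ hc1 hd1,
        hface _ _ hc1 hd2]
      rw [altP_insert' hni S₀.eraseNone (fun C => m (C.map Function.Embedding.some))] at hlo
      exact hlo
    · have hS' : S₀ = S₀.eraseNone.map Function.Embedding.some := by
        rw [Finset.map_some_eraseNone, Finset.erase_eq_of_notMem hnS]
      have h2 : (fun A : Finset ι => m (S₀ ∪ A.map Function.Embedding.some)) =
          fun A => m ((S₀.eraseNone ∪ A).map Function.Embedding.some) := by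
        funext A
        rw [Finset.map_union, ← hS']
      rw [h2]
      exact hlo

/-- a homeomorphism over a translation, which is a translation in dimension `l`, is a translation -/
theorem isTransl_of_level {h : P.X ≃ₜ P.X} {g : P'.X ≃ₜ P'.X} (hg : IsTransl P'.T g)
    (hlift : ∀ x, L.fac.π (h x) = g (L.fac.π x))
    (hl : ∀ c ∈ Cub P.T (Fin l), pairCube c (fun S => h (c S)) ∈ Cub P.T (Option (Fin l))) :
    IsTransl P.T h := by
  have hlift' : ∀ x, L.fac.π (h.symm x) = g.symm (L.fac.π x) := by
    intro x
    rw [Homeomorph.eq_symm_apply, ← hlift, h.apply_symm_apply]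
  refine ⟨L.halfTransl_of_level hg.1 hlift hl, L.halfTransl_of_level hg.2 hlift' ?_⟩
  intro c hc
  have h1 : (fun S => h.symm (c S)) ∈ Cub P.T (Fin l) := by
    refine L.mem_of_proj_mem (by simp) ?_
    have h2 : (fun S => L.fac.π (h.symm (c S))) = fun S => g.symm (L.fac.π (c S)) := by
      funext S; exact hlift' _
    rw [h2]
    exact Cub_upper (hg.2 _ _ (L.proj_mem hc))
  have h2 := hl _ h1
  have h3 := pairCube_swap h2
  simpa using h3

end LieStep

end MP_e326dc_an
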