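import Mathlib

set_option autoImplicit false
set_option linter.unusedSectionVars false

/-!
# MP_e326dc_an, block E6 : alternating products on discrete cubes (Moebius inversion)
-/

namespace MP_e326dc_an

section alt

variable {ι : Type*} [DecidableEq ι] {B : Type*} [CommGroup B]

/-- the alternating product of `m` over the subsets of `J` -/
def altP (J : Finset ι) (m : Finset ι → B) : B := ∏ A ∈ J.powerset, m A ^ ((-1 : ℤ) ^ A.card)

theorem altP_empty (m : Finset ι → B) : altP ∅ m = m ∅ := by simp [altP]

theorem altP_insert {i : ι} {J : Finset ι} (hi : i ∉ J) (m : Finset ι → B) :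
    altP (insert i J) m = altP J m * (altP J fun A => m (insert i A))⁻¹ := by
  unfold altP
  rw [Finset.prod_powerset_insert hi]
  congr 1
  rw [← Finset.prod_inv_distrib]
  refine Finset.prod_congr rfl fun A hA => ?_
  have hiA : i ∉ A := fun h => hi (Finset.mem_powerset.mp hA h)
  rw [Finset.card_insert_of_notMem hiA, pow_succ, mul_neg_one, zpow_neg]

theorem altP_mul (J : Finset ι) (m m' : Finset ι → B) :
    altP J (fun A => m A * m' A) = altP J m * altP J m' := by
  unfold altP
  rw [← Finset.prod_mul_distrib]
  exact Finset.prod_congr rfl fun A _ => mul_zpow _ _ _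

theorem altP_inv (J : Finset ι) (m : Finset ι → B) :
    altP J (fun A => (m A)⁻¹) = (altP J m)⁻¹ := by
  unfold altP
  rw [← Finset.prod_inv_distrib]
  exact Finset.prod_congr rfl fun A _ => inv_zpow _ _

theorem altP_one (J : Finset ι) : altP J (fun _ => (1 : B)) = 1 := by
  unfold altP
  exact Finset.prod_eq_one fun A _ => one_zpow _

theorem altP_congr {J : Finset ι} {m m' : Finset ι → B} (h : ∀ A ⊆ J, m A = m' A) :
    altP J m = altP J m' := by
  unfold altP
  exact Finset.prod_congr rfl fun A hA => by rw [h A (Finset.mem_powerset.mp hA)]

/-- the function with Moebius coefficients `β` -/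
def mob (β : Finset ι → B) (S : Finset ι) : B := ∏ A ∈ S.powerset, β A

theorem mob_insert {i : ι} {S : Finset ι} (hi : i ∉ S) (β : Finset ι → B) :
    mob β (insert i S) = mob β S * mob (fun A => β (insert i A)) S := by
  unfold mob
  rw [Finset.prod_powerset_insert hi]

/-- Moebius inversion -/
theorem exists_mob (m : Finset ι → B) : ∃ β : Finset ι → B, ∀ S, m S = mob β S := by
  have key : ∀ n : ℕ, ∃ β : Finset ι → B, ∀ S : Finset ι, S.card < n → m S = mob β S := by
    intro n
    induction n with
    | zero => exact ⟨fun _ => 1, fun S h => absurd h (Nat.not_lt_zero _)⟩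
    | succ n ih =>
      obtain ⟨β, hβ⟩ := ih
      classical
      refine ⟨fun A => if A.card < n then β A else m A * (∏ A' ∈ A.ssubsets, β A')⁻¹, ?_⟩
      intro S hS
      by_cases h : S.card < n
      · rw [hβ S h]
        refine Finset.prod_congr rfl fun A hA => ?_
        have : A.card < n := lt_of_le_of_lt (Finset.card_le_card (Finset.mem_powerset.mp hA)) h
        simp [this]
      · have hSn : S.card = n := by omega
        unfold mob
        have hps : S.powerset = insert S S.ssubsets := by
          ext A
          simp only [Finset.mem_powerset, Finset.mem_insert, Finset.mem_ssubsets]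
          constructor
          · intro hA
            rcases eq_or_ne A S with h' | h'
            · exact Or.inl h'
            · exact Or.inr (lt_of_le_of_ne hA h')
          · rintro (h' | h')
            · exact h' ▸ subset_rfl
            · exact h'.subset
        rw [hps, Finset.prod_insert (by simp)]
        have h1 : ∏ A ∈ S.ssubsets,
            (if A.card < n then β A else m A * (∏ A' ∈ A.ssubsets, β A')⁻¹) =
            ∏ A ∈ S.ssubsets, β A := by
          refine Finset.prod_congr rfl fun A hA => ?_
          have hAS : A ⊂ S := Finset.mem_ssubsets.mp hA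
          have : A.card < n := by rw [← hSn]; exact Finset.card_lt_card hAS
          simp [this]
        rw [h1]
        simp [h]
  -- make the choice uniform in `n` by recursion on the cardinality
  classical
  choose β hβ using key
  -- uniqueness of the coefficients
  have huniq : ∀ (n n' : ℕ) (A : Finset ι), A.card < n → A.card < n' → β n A = β n' A := by
    intro n n' A
    induction A using Finset.strongInduction with
    | H A ih =>
      intro h h'
      have h1 := hβ n A h
      have h2 := hβ n' A h'
      have hps : A.powerset = insert A A.ssubsets := by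
        ext C
        simp only [Finset.mem_powerset, Finset.mem_insert, Finset.mem_ssubsets]
        constructor
        · intro hC
          rcases eq_or_ne C A with h' | h'
          · exact Or.inl h'
          · exact Or.inr (lt_of_le_of_ne hC h')
        · rintro (h' | h')
          · exact h' ▸ subset_rfl
          · exact h'.subset
      unfold mob at h1 h2
      rw [hps, Finset.prod_insert (by simp)] at h1 h2
      have h3 : ∏ C ∈ A.ssubsets, β n C = ∏ C ∈ A.ssubsets, β n' C := by
        refine Finset.prod_congr rfl fun C hC => ?_
        have hCA : C ⊂ A := Finset.mem_ssubsets.mp hC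
        have hcard := Finset.card_lt_card hCA
        exact ih C hCA (by omega) (by omega)
      rw [h3] at h1
      rw [h1] at h2
      exact mul_right_cancel h2
  refine ⟨fun A => β (A.card + 1) A, fun S => ?_⟩
  rw [hβ (S.card + 1) S (Nat.lt_succ_self _)]
  refine Finset.prod_congr rfl fun A hA => ?_
  have := Finset.card_le_card (Finset.mem_powerset.mp hA)
  exact huniq _ _ A (by omega) (by omega)

/-- alternating products in terms of Moebius coefficients -/
theorem altP_mob (β : Finset ι → B) (J : Finset ι) : ∀ S₀ : Finset ι, Disjoint S₀ J →
    altP J (fun A => mob β (S₀ ∪ A)) = (mob (fun A => β (J ∪ A)) S₀) ^ ((-1 : ℤ) ^ J.card) := by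
  induction J using Finset.induction_on generalizing β with
  | empty =>
    intro S₀ _
    rw [altP_empty]
    simp
  | insert i J hi ih =>
    intro S₀ hd
    rw [Finset.disjoint_insert_right] at hd
    rw [altP_insert hi, ih β S₀ hd.2]
    have h1 : altP J (fun A => mob β (S₀ ∪ insert i A)) =
        altP J (fun A => mob β (S₀ ∪ A)) * altP J (fun A => mob (fun C => β (insert i C)) (S₀ ∪ A)) := by
      rw [← altP_mul]
      refine altP_congr fun A hA => ?_
      have hiA : i ∉ S₀ ∪ A := by
        rw [Finset.mem_union]
        rintro (h | h)
        · exact hd.1 h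
        · exact hi (hA h)
      rw [Finset.union_insert, mob_insert hiA]
    rw [h1, ih β S₀ hd.2, ih (fun C => β (insert i C)) S₀ hd.2, mul_inv_rev, mul_comm _⁻¹ _⁻¹,
      ← mul_assoc, mul_inv_cancel, one_mul, Finset.card_insert_of_notMem hi, pow_succ, mul_neg_one,
      zpow_neg]
    congr 2
    unfold mob
    refine Finset.prod_congr rfl fun A _ => ?_
    change β (insert i (J ∪ A)) = β (insert i J ∪ A)
    rw [Finset.insert_union]

/-- all the faces of dimension `k+1` have trivial alternating product -/
def FaceTriv (k : ℕ) (m : Finset ι → B) : Prop :=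
  ∀ J S₀ : Finset ι, J.card = k + 1 → Disjoint S₀ J → altP J (fun A => m (S₀ ∪ A)) = 1

/-- such functions are polynomial of degree at most `k` -/
theorem FaceTriv.exists_mob {k : ℕ} {m : Finset ι → B} (h : FaceTriv k m) :
    ∃ β : Finset ι → B, (∀ A, k < A.card → β A = 1) ∧ ∀ S, m S = mob β S := by
  obtain ⟨β, hβ⟩ := MP_e326dc_an.exists_mob m
  refine ⟨β, ?_, hβ⟩
  intro A
  induction A using Finset.strongInduction with
  | H A ih =>
    intro hA
    obtain ⟨J, hJA, hJ⟩ := Finset.exists_subset_card_eq (s := A) (n := k + 1) (by omega)
    have hd : Disjoint (A \ J) J := Finset.sdiff_disjoint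
    have h1 := h J (A \ J) hJ hd
    have h2 : (fun C => m (A \ J ∪ C)) = fun C => mob β (A \ J ∪ C) := by
      funext C; rw [hβ]
    rw [h2, altP_mob β J _ hd] at h1
    have h3 : mob (fun C => β (J ∪ C)) (A \ J) = 1 := by
      have h4 : ((mob (fun C => β (J ∪ C)) (A \ J)) ^ ((-1 : ℤ) ^ J.card)) ^ ((-1 : ℤ) ^ J.card) =
          1 := by rw [h1, one_zpow]
      rw [← zpow_mul, ← mul_pow] at h4
      simpa using h4
    unfold mob at h3
    have h4 : ∀ C ∈ (A \ J).powerset, C ≠ A \ J → β (J ∪ C) = 1 := by
      intro C hC hne
      have hC' := Finset.mem_powerset.mp hC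
      refine ih (J ∪ C) ?_ ?_
      · refine lt_of_le_of_ne (Finset.union_subset hJA (hC'.trans Finset.sdiff_subset)) ?_
        intro he
        apply hne
        refine subset_antisymm hC' ?_
        intro x hx
        have hx' := Finset.mem_sdiff.mp hx
        rw [← he] at hx'
        rcases Finset.mem_union.mp hx'.1 with h5 | h5
        · exact absurd h5 hx'.2
        · exact h5
      · have : J.card ≤ (J ∪ C).card := Finset.card_le_card Finset.subset_union_left
        omega
    rw [Finset.prod_eq_single_of_mem (A \ J) (Finset.mem_powerset.mpr subset_rfl) h4] at h3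
    rwa [Finset.union_sdiff_of_subset hJA] at h3

theorem faceTriv_of_mob {k : ℕ} {β : Finset ι → B} (h : ∀ A, k < A.card → β A = 1) :
    FaceTriv k (mob β) := by
  intro J S₀ hJ hd
  rw [altP_mob β J S₀ hd]
  have : mob (fun A => β (J ∪ A)) S₀ = 1 := by
    refine Finset.prod_eq_one fun A _ => h _ ?_
    have : J.card ≤ (J ∪ A).card := Finset.card_le_card Finset.subset_union_left
    omega
  rw [this, one_zpow]

end alt

end MP_e326dc_an
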