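import Pool.Agent.Lib.MP_e326dc_an.E6.Face

set_option autoImplicit false
set_option linter.unusedSectionVars false

/-!
# MP_e326dc_an, block E6 : the defect of a family over a cube
-/

open Filter Topology

namespace MP_e326dc_an

/-- a map into a compact space with closed graph is continuous -/
theorem continuousOn_of_closed_graph {X B : Type*} [TopologicalSpace X] [TopologicalSpace B]
    [CompactSpace B] {f : X → B} {s : Set X} {C : Set (X × B)} (hC : IsClosed C)
    (h : ∀ x ∈ s, ∀ b, (x, b) ∈ C ↔ f x = b) : ContinuousOn f s := by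
  intro x₀ hx₀
  rw [ContinuousWithinAt, tendsto_iff_ultrafilter]
  intro g hg
  obtain ⟨b, hb⟩ : ∃ b : B, (g.map f : Filter B) ≤ 𝓝 b := by
    obtain ⟨b, -, hb⟩ := isCompact_univ.ultrafilter_le_nhds (g.map f) (by simp)
    exact ⟨b, hb⟩
  have h1 : Tendsto (fun x => (x, f x)) (g : Filter X) (𝓝 (x₀, b)) := by
    rw [nhds_prod_eq]
    have ha : Tendsto (fun x : X => x) (g : Filter X) (𝓝 x₀) := hg.trans nhdsWithin_le_nhds
    have hb' : Tendsto f (g : Filter X) (𝓝 b) := hb
    exact ha.prodMk hb'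
  have h2 : (x₀, b) ∈ C := by
    refine hC.mem_of_tendsto h1 ?_
    have h3 : s ∈ (g : Filter X) := hg self_mem_nhdsWithin
    filter_upwards [h3] with x hx
    exact (h x hx _).2 rfl
  rw [(h x₀ hx₀ b).1 h2]
  exact hb

theorem altP_single {ι : Type*} [DecidableEq ι] [Fintype ι] {B : Type*} [CommGroup B]
    (S₁ : Finset ι) (x : B) :
    altP (Finset.univ : Finset ι) (fun S => if S = S₁ then x else 1) = x ^ ((-1 : ℤ) ^ S₁.card) := by
  unfold altP
  rw [Finset.prod_eq_single_of_mem S₁ (Finset.mem_powerset.mpr (Finset.subset_univ _))]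
  · simp
  · intro S _ hS
    simp [hS]

namespace LieStep

variable {P P' : DSys} {l : ℕ} (L : LieStep P P' l) {ι : Type} [Fintype ι] [DecidableEq ι]

instance compactB (L : LieStep P P' l) : CompactSpace L.B :=
  isCompact_iff_compactSpace.mp L.closed.isCompact

/-- multiply the vertex `S₁` by `b` -/
noncomputable def vmul (S₁ : Finset ι) (b : L.B) (p : Finset ι → P.X) : Finset ι → P.X :=
  L.cmul (fun S => if S = S₁ then b else 1) p

theorem vmul_ne {S₁ : Finset ι} (b : L.B) (p : Finset ι → P.X) {S : Finset ι} (h : S ≠ S₁) :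
    L.vmul S₁ b p S = p S := by
  simp only [vmul, cmul, h, if_false]
  exact L.act.hom_one _

theorem proj_cmul (m : Finset ι → L.B) (p : Finset ι → P.X) :
    (fun S => L.fac.π (L.cmul m p S)) = fun S => L.fac.π (p S) := by
  funext S
  exact ((L.fib _ _).2 ⟨m S, rfl⟩).symm

theorem faceTriv_of_altP (hι : Fintype.card ι = l + 1) {m : Finset ι → L.B}
    (hm : altP Finset.univ m = 1) : FaceTriv l m := by
  intro J S₀ hJ hd
  have hJu : J = Finset.univ := by
    apply Finset.eq_univ_of_card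
    rw [hJ, hι]
  subst hJu
  have hS₀ : S₀ = ∅ :=
    Finset.eq_empty_of_forall_notMem fun x hx => Finset.disjoint_left.mp hd hx (Finset.mem_univ x)
  subst hS₀
  simpa using hm

theorem mem_iff_altP (hι : Fintype.card ι = l + 1) {m : Finset ι → L.B} {c : Finset ι → P.X}
    (hc : c ∈ Cub P.T ι) : L.cmul m c ∈ Cub P.T ι ↔ altP Finset.univ m = 1 :=
  ⟨fun h => L.altP_eq_one_of_card hι hc h, fun h => L.faceTriv_mem (L.faceTriv_of_altP hι h) hc⟩

/-- existence and uniqueness of the defect -/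
theorem existsUnique_defect (hι : Fintype.card ι = l + 1) {p : Finset ι → P.X}
    (hp : (fun S => L.fac.π (p S)) ∈ Cub P'.T ι) : ∃! b : L.B, L.vmul ∅ b⁻¹ p ∈ Cub P.T ι := by
  obtain ⟨c, hc, m, rfl⟩ := L.exists_cube_of_proj hp
  have key : ∀ b : L.B, L.vmul ∅ b⁻¹ (L.cmul m c) ∈ Cub P.T ι ↔ altP Finset.univ m = b := by
    intro b
    rw [vmul, L.cmul_cmul, L.mem_iff_altP hι hc, altP_mul, altP_single, Finset.card_empty,
      pow_zero, zpow_one, inv_mul_eq_one]
    exact eq_comm
  refine ⟨altP Finset.univ m, (key _).2 rfl, fun b hb => ((key b).1 hb).symm⟩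

open Classical in
/-- the defect -/
noncomputable def dfc (p : Finset ι → P.X) : L.B :=
  if h : ∃ b : L.B, L.vmul ∅ b⁻¹ p ∈ Cub P.T ι then h.choose else 1

theorem dfc_spec (hι : Fintype.card ι = l + 1) {p : Finset ι → P.X}
    (hp : (fun S => L.fac.π (p S)) ∈ Cub P'.T ι) : L.vmul ∅ (L.dfc p)⁻¹ p ∈ Cub P.T ι := by
  have h := (L.existsUnique_defect hι hp).exists
  unfold dfc
  rw [dif_pos h]
  exact h.choose_spec

theorem dfc_iff (hι : Fintype.card ι = l + 1) {p : Finset ι → P.X}
    (hp : (fun S => L.fac.π (p S)) ∈ Cub P'.T ι) (b : L.B) :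
    L.vmul ∅ b⁻¹ p ∈ Cub P.T ι ↔ L.dfc p = b := by
  constructor
  · intro h
    exact (L.existsUnique_defect hι hp).unique (L.dfc_spec hι hp) h
  · rintro rfl
    exact L.dfc_spec hι hp

theorem dfc_cmul (hι : Fintype.card ι = l + 1) (m : Finset ι → L.B) {p : Finset ι → P.X}
    (hp : (fun S => L.fac.π (p S)) ∈ Cub P'.T ι) :
    L.dfc (L.cmul m p) = altP Finset.univ m * L.dfc p := by
  have hp' : (fun S => L.fac.π (L.cmul m p S)) ∈ Cub P'.T ι := by rw [L.proj_cmul]; exact hp
  rw [← L.dfc_iff hι hp']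
  have h1 := L.dfc_spec hι hp
  have h2 : L.vmul ∅ (altP Finset.univ m * L.dfc p)⁻¹ (L.cmul m p) =
      L.cmul (fun S => (if S = ∅ then (altP Finset.univ m)⁻¹ else 1) * m S)
        (L.vmul ∅ (L.dfc p)⁻¹ p) := by
    rw [vmul, vmul, L.cmul_cmul, L.cmul_cmul]
    refine L.cmul_congr (fun S => ?_) p
    by_cases h : S = ∅
    · simp only [h, if_true, mul_inv]
      rw [mul_right_comm]
    · simp [h]
  rw [h2, L.mem_iff_altP hι h1, altP_mul, altP_single]
  simp

theorem dfc_eq_one_iff (hι : Fintype.card ι = l + 1) {p : Finset ι → P.X}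
    (hp : (fun S => L.fac.π (p S)) ∈ Cub P'.T ι) : L.dfc p = 1 ↔ p ∈ Cub P.T ι := by
  rw [← L.dfc_iff hι hp, inv_one, vmul]
  have : L.cmul (fun S : Finset ι => if S = ∅ then (1 : L.B) else 1) p = p := by
    rw [L.cmul_congr (m' := fun _ => 1) (fun S => by simp), L.cmul_one]
  rw [this]

theorem continuousOn_dfc (hι : Fintype.card ι = l + 1) :
    ContinuousOn (L.dfc : (Finset ι → P.X) → L.B)
      {p | (fun S => L.fac.π (p S)) ∈ Cub P'.T ι} := by
  refine continuousOn_of_closed_graph (C := {q : (Finset ι → P.X) × L.B |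
    L.vmul ∅ q.2⁻¹ q.1 ∈ Cub P.T ι}) ?_ fun p hp b => L.dfc_iff hι hp b
  have hc : Continuous fun q : (Finset ι → P.X) × L.B => L.vmul ∅ q.2⁻¹ q.1 := by
    refine continuous_pi fun S => ?_
    by_cases h : S = ∅
    · have h1 : (fun q : (Finset ι → P.X) × L.B => L.vmul ∅ q.2⁻¹ q.1 S) =
          fun q => L.act.hom q.2⁻¹ (q.1 S) := by
        funext q; simp only [vmul, cmul, h, if_true]
      rw [h1]
      exact L.act.cont.comp (continuous_snd.inv.prodMk ((continuous_apply S).comp continuous_fst))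
    · have h1 : (fun q : (Finset ι → P.X) × L.B => L.vmul ∅ q.2⁻¹ q.1 S) = fun q => q.1 S := by
        funext q; exact L.vmul_ne _ _ h
      rw [h1]
      exact (continuous_apply S).comp continuous_fst
  exact isClosed_Cub.preimage hc

/-- the defect is additive under gluing -/
theorem dfc_glue (hι : Fintype.card ι = l + 1) (i : ι) {p p' : Finset ι → P.X}
    (hp : (fun S => L.fac.π (p S)) ∈ Cub P'.T ι) (hp' : (fun S => L.fac.π (p' S)) ∈ Cub P'.T ι)
    (h : ∀ A, i ∉ A → p (insert i A) = p' A) : L.dfc (glue i p p') = L.dfc p * L.dfc p' := by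
  have h1 := L.dfc_spec hι hp
  set c := L.vmul ∅ (L.dfc p)⁻¹ p with hc
  set c' := L.vmul {i} (L.dfc p') p' with hc'
  have hproj' : (fun S => L.fac.π (c' S)) ∈ Cub P'.T ι := by
    rw [hc', vmul, L.proj_cmul]; exact hp'
  have h2 : c' ∈ Cub P.T ι := by
    rw [← L.dfc_eq_one_iff hι hproj', hc', vmul, L.dfc_cmul hι _ hp', altP_single]
    simp
  have hglue : ∀ A, i ∉ A → c (insert i A) = c' A := by
    intro A hA
    rw [hc, hc', L.vmul_ne _ _ (Finset.insert_ne_empty i A), L.vmul_ne, h A hA]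
    rintro rfl
    exact hA (Finset.mem_singleton_self i)
  have h3 := glue_mem L.ord.min L.distalU i h1 h2 hglue
  have h4 : glue i p p' =
      L.cmul (fun S => (if S = ∅ then L.dfc p else 1) * (if S = {i} then (L.dfc p')⁻¹ else 1))
        (glue i c c') := by
    funext S
    by_cases hS : i ∈ S
    · have hne : S ≠ ∅ := by rintro rfl; exact absurd hS (Finset.notMem_empty i)
      simp only [glue, hS, if_true, cmul, hne, if_false, one_mul]
      by_cases hSi : S = {i}
      · simp only [hSi, if_true, hc', vmul, cmul]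
        rw [L.act.hom_inv_hom]
      · simp only [hSi, if_false, hc', L.act.hom_one]
        rw [L.vmul_ne _ _ hSi]
    · have hne : S ≠ {i} := by rintro rfl; exact hS (Finset.mem_singleton_self i)
      simp only [glue, hS, if_false, cmul, hne, mul_one]
      by_cases hSi : S = ∅
      · simp only [hSi, if_true, hc, vmul, cmul]
        rw [L.act.hom_hom_inv]
      · simp only [hSi, if_false, hc, L.act.hom_one]
        rw [L.vmul_ne _ _ hSi]
  have h5 : (fun S => L.fac.π (glue i c c' S)) ∈ Cub P'.T ι := L.proj_mem h3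
  rw [h4, L.dfc_cmul hι _ h5, (L.dfc_eq_one_iff hι h5).2 h3, mul_one, altP_mul, altP_single,
    altP_single]
  simp

end LieStep

end MP_e326dc_an
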