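import Pool.Agent.Lib.MP_e326dc_an.Cube.Glue
import Pool.Agent.Lib.MP_e326dc_an.E.Act
import Pool.Agent.Lib.MP_e326dc_an.E6.Alt

set_option autoImplicit false
set_option linter.unusedSectionVars false

/-!
# MP_e326dc_an, block E6 : the group of a Lie step acting on faces of cubes
-/

open Filter Topology

namespace MP_e326dc_an

namespace LieStep

variable {P P' : DSys} {l : ℕ} (L : LieStep P P' l) {ι : Type} [Fintype ι] [DecidableEq ι]

theorem distalU (L : LieStep P P' l) : DistalU P.T := L.ord.uniq.distalU

/-- coordinatewise action -/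
noncomputable def cmul (m : Finset ι → L.B) (c : Finset ι → P.X) : Finset ι → P.X := fun S => L.act.hom (m S) (c S)

theorem cmul_cmul (m m' : Finset ι → L.B) (c : Finset ι → P.X) :
    L.cmul m (L.cmul m' c) = L.cmul (fun S => m S * m' S) c := by
  funext S; exact (L.act.hom_mul _ _ _).symm

theorem cmul_one (c : Finset ι → P.X) : L.cmul (fun _ => 1) c = c := by
  funext S; exact L.act.hom_one _

theorem cmul_congr {m m' : Finset ι → L.B} (h : ∀ S, m S = m' S) (c : Finset ι → P.X) :
    L.cmul m c = L.cmul m' c := by
  funext S; simp only [cmul, h S]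

/-- the map on faces `{S : A ⊆ S}`, `|A| ≤ l`, preserves cubes -/
theorem faceAct_mem (b : L.B) (A : Finset ι) (hA : A.card ≤ l) {c : Finset ι → P.X}
    (hc : c ∈ Cub P.T ι) : faceAct (L.act.hom b) A c ∈ Cub P.T ι := by
  classical
  have hfa : ∀ d : Finset ι → P.X, faceAct (L.act.hom b) A d =
      fun S => (if A ⊆ S then (L.act.hom b : P.X → P.X) else id) (d S) := by
    intro d; funext S
    by_cases h : A ⊆ S <;> simp [faceAct, h]
  rw [hfa]
  refine coord_mem L.ord.min L.distalU (fun S => ?_) (fun S x => ?_)
    (const_mem_Cub (c ∅)) ?_ hc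
  · by_cases h : A ⊆ S
    · simpa [h] using (L.act.hom b).continuous
    · simpa [h] using continuous_id
  · by_cases h : A ⊆ S
    · simpa [h] using L.act.comm b x
    · simp [h]
  · obtain ⟨e⟩ : Nonempty (A ↪ Fin l) :=
      Function.Embedding.nonempty_of_card_le (by simpa using hA)
    let ψ : Finset ι → Finset (Fin l) := fun S =>
      Finset.univ.filter fun j => ∀ a : A, e a = j → (a : ι) ∈ S
    have hψ : AffMap ψ := by
      refine affMap_of_coord fun j => ?_
      by_cases h : ∃ a : A, e a = j
      · obtain ⟨a, ha⟩ := h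
        right; right; left
        refine ⟨(a : ι), fun S => ?_⟩
        simp only [ψ, Finset.mem_filter, Finset.mem_univ, true_and]
        constructor
        · intro h; exact h a ha
        · intro h a' ha'
          have : a' = a := e.injective (ha'.trans ha.symm)
          rwa [this]
      · left
        intro S
        simp only [ψ, Finset.mem_filter, Finset.mem_univ, true_and]
        intro a ha
        exact absurd ⟨a, ha⟩ h
    have hu : ∀ S, ψ S = Finset.univ ↔ A ⊆ S := by
      intro S
      constructor
      · intro h a ha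
        have h1 : e ⟨a, ha⟩ ∈ ψ S := by rw [h]; exact Finset.mem_univ _
        simp only [ψ, Finset.mem_filter, Finset.mem_univ, true_and] at h1
        exact h1 ⟨a, ha⟩ rfl
      · intro h
        ext j
        simp only [ψ, Finset.mem_filter, Finset.mem_univ, true_and, iff_true]
        intro a _
        exact h a.2
    have h1 := Cub_comp hψ ((L.str b).2 (c ∅))
    have h2 : (fun S : Finset ι =>
        (vcube (c ∅) (L.act.hom b (c ∅)) : Finset (Fin l) → P.X) (ψ S)) =
        fun S => (if A ⊆ S then (L.act.hom b : P.X → P.X) else id) (c ∅) := by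
      funext S
      by_cases h : A ⊆ S
      · simp [vcube, (hu S).2 h, h]
      · have : ψ S ≠ Finset.univ := fun h' => h ((hu S).1 h')
        simp [vcube, this, h]
    rwa [h2] at h1

/-- the coordinatewise action of polynomial maps of degree at most `l` preserves cubes -/
theorem mob_mem {β : Finset ι → L.B} (hβ : ∀ A, l < A.card → β A = 1) {c : Finset ι → P.X}
    (hc : c ∈ Cub P.T ι) : L.cmul (mob β) c ∈ Cub P.T ι := by
  classical
  have key : ∀ 𝒜 : Finset (Finset ι),
      L.cmul (fun S => ∏ A ∈ S.powerset ∩ 𝒜, β A) c ∈ Cub P.T ι := by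
    intro 𝒜
    induction 𝒜 using Finset.induction_on with
    | empty =>
      have : L.cmul (fun S : Finset ι => ∏ A ∈ S.powerset ∩ ∅, β A) c = c := by
        rw [L.cmul_congr (m' := fun _ => 1) (fun S => by simp), L.cmul_one]
      rwa [this]
    | insert A 𝒜 hA ih =>
      by_cases hAc : A.card ≤ l
      · have h1 := L.faceAct_mem (β A) A hAc ih
        have h2 : faceAct (L.act.hom (β A)) A (L.cmul (fun S => ∏ A ∈ S.powerset ∩ 𝒜, β A) c) =
            L.cmul (fun S => ∏ A' ∈ S.powerset ∩ insert A 𝒜, β A') c := by
          funext S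
          by_cases h : A ⊆ S
          · have h3 : S.powerset ∩ insert A 𝒜 = insert A (S.powerset ∩ 𝒜) := by
              rw [Finset.inter_insert_of_mem (Finset.mem_powerset.mpr h)]
            simp only [faceAct, h, if_true, cmul]
            rw [h3, Finset.prod_insert (fun h' => hA (Finset.mem_inter.mp h').2), L.act.hom_mul]
          · have h3 : S.powerset ∩ insert A 𝒜 = S.powerset ∩ 𝒜 := by
              rw [Finset.inter_insert_of_notMem (fun h' => h (Finset.mem_powerset.mp h'))]
            simp only [faceAct, h, if_false, cmul]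
            rw [h3]
        rwa [h2] at h1
      · have h2 : L.cmul (fun S => ∏ A' ∈ S.powerset ∩ insert A 𝒜, β A') c =
            L.cmul (fun S => ∏ A ∈ S.powerset ∩ 𝒜, β A) c := by
          refine L.cmul_congr (fun S => ?_) c
          by_cases h : A ⊆ S
          · have h3 : S.powerset ∩ insert A 𝒜 = insert A (S.powerset ∩ 𝒜) := by
              rw [Finset.inter_insert_of_mem (Finset.mem_powerset.mpr h)]
            rw [h3, Finset.prod_insert (fun h' => hA (Finset.mem_inter.mp h').2),
              hβ A (by omega), one_mul]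
          · rw [Finset.inter_insert_of_notMem (fun h' => h (Finset.mem_powerset.mp h'))]
        rwa [h2]
  have h := key Finset.univ
  have h2 : L.cmul (fun S => ∏ A ∈ S.powerset ∩ Finset.univ, β A) c = L.cmul (mob β) c :=
    L.cmul_congr (fun S => by rw [Finset.inter_univ, mob]) c
  rwa [h2] at h

theorem faceTriv_mem {m : Finset ι → L.B} (hm : FaceTriv l m) {c : Finset ι → P.X}
    (hc : c ∈ Cub P.T ι) : L.cmul m c ∈ Cub P.T ι := by
  obtain ⟨β, hβ, hmβ⟩ := hm.exists_mob
  rw [L.cmul_congr hmβ]
  exact L.mob_mem hβ hc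

/-- `c` and `m c` cubes of dimension `l+1` : the alternating product of `m` is trivial -/
theorem altP_eq_one_of_card (hι : Fintype.card ι = l + 1) {m : Finset ι → L.B} {c : Finset ι → P.X}
    (hc : c ∈ Cub P.T ι) (hmc : L.cmul m c ∈ Cub P.T ι) : altP Finset.univ m = 1 := by
  obtain ⟨β, hβ⟩ := exists_mob m
  set β' : Finset ι → L.B := fun A => if A.card ≤ l then β A else 1 with hβ'
  have h1 : L.cmul (mob β') c ∈ Cub P.T ι := by
    refine L.mob_mem (fun A hA => ?_) hc
    simp [hβ', not_le.mpr hA]
  have hcard : ∀ A : Finset ι, A ≠ Finset.univ → A.card ≤ l := by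
    intro A hA
    have := Finset.card_lt_card (Finset.ssubset_univ_iff.mpr hA)
    rw [Finset.card_univ, hι] at this
    omega
  have h2 : ∀ S, S ≠ Finset.univ → m S = mob β' S := by
    intro S hS
    rw [hβ S]
    refine Finset.prod_congr rfl fun A hA => ?_
    have : A.card ≤ l := by
      have h3 := Finset.card_le_card (Finset.mem_powerset.mp hA)
      have h4 := hcard S hS
      omega
    simp [hβ', this]
  have h3 : L.cmul m c = L.cmul (mob β') c := by
    refine L.ord.uniq.ext (by rw [hι]) hmc h1 Finset.univ fun S hS => ?_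
    simp only [cmul, h2 S hS]
  have h4 : m = mob β' := by
    funext S
    have h5 := congrFun h3 S
    simp only [cmul] at h5
    have h6 : L.act.hom ((mob β' S)⁻¹ * m S) (c S) = c S := by
      rw [L.act.hom_mul, h5, L.act.hom_inv_hom]
    have h7 := L.act.free _ _ h6
    exact (inv_mul_eq_one.mp h7).symm
  rw [h4]
  have h5 : FaceTriv l (mob β') := faceTriv_of_mob fun A hA => by simp [hβ', not_le.mpr hA]
  have h6 := h5 Finset.univ ∅ (by rw [Finset.card_univ, hι]) (Finset.disjoint_empty_left _)
  simpa using h6

/-- `c` and `m c` cubes of any dimension : the faces of dimension `l+1` of `m` are trivial -/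
theorem faceTriv_of_mem {m : Finset ι → L.B} {c : Finset ι → P.X}
    (hc : c ∈ Cub P.T ι) (hmc : L.cmul m c ∈ Cub P.T ι) : FaceTriv l m := by
  intro J S₀ hJ hd
  let ψ : Finset J → Finset ι := fun A => S₀ ∪ A.map (Function.Embedding.subtype _)
  have hψ : AffMap ψ := by
    refine affMap_of_coord fun i => ?_
    by_cases hi : i ∈ S₀
    · left; intro A; exact Finset.mem_union_left _ hi
    · by_cases hiJ : i ∈ J
      · right; right; left
        refine ⟨⟨i, hiJ⟩, fun A => ?_⟩
        simp [ψ, hi, hiJ]
      · right; left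
        intro A h
        rcases Finset.mem_union.mp h with h | h
        · exact hi h
        · obtain ⟨a, _, rfl⟩ := Finset.mem_map.mp h
          exact hiJ a.2
  have h1 := Cub_comp hψ hc
  have h2 := Cub_comp hψ hmc
  have h3 := L.altP_eq_one_of_card (ι := J) (m := fun A => m (ψ A)) (by simpa using hJ) h1 h2
  rw [← h3]
  unfold altP
  refine (Finset.prod_bij (fun A _ => A.map (Function.Embedding.subtype _)) ?_ ?_ ?_ ?_).symm
  · intro A _
    rw [Finset.mem_powerset]
    intro i hi
    obtain ⟨a, _, rfl⟩ := Finset.mem_map.mp hi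
    exact a.2
  · intro A _ A' _ h
    exact Finset.map_injective _ h
  · intro A hA
    refine ⟨A.subtype (· ∈ J), Finset.mem_powerset.mpr (Finset.subset_univ _), ?_⟩
    rw [Finset.subtype_map]
    exact Finset.filter_true_of_mem fun i hi => Finset.mem_powerset.mp hA hi
  · intro A _
    simp only [ψ, Finset.card_map]

/-- the projection of a cube -/
theorem proj_mem {c : Finset ι → P.X} (hc : c ∈ Cub P.T ι) :
    (fun S => L.fac.π (c S)) ∈ Cub P'.T ι := Cub_map L.fac.cont L.fac.equi hc

/-- a family over a cube is `m c` with `c` a cube -/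
theorem exists_cube_of_proj {p : Finset ι → P.X} (hp : (fun S => L.fac.π (p S)) ∈ Cub P'.T ι) :
    ∃ c ∈ Cub P.T ι, ∃ m : Finset ι → L.B, p = L.cmul m c := by
  obtain ⟨c, hc, hcp⟩ := Cub_lift L.fac.cont L.fac.surj L.fac.equi hp
  have h : ∀ S, ∃ b : L.B, L.act.hom b (c S) = p S := by
    intro S
    exact (L.fib _ _).1 (congrFun hcp S)
  choose m hm using h
  exact ⟨c, hc, m, funext fun S => (hm S).symm⟩

/-- in dimension at most `l` the cubes of `P` are the full preimage of the cubes of `P'` -/
theorem mem_of_proj_mem (hι : Fintype.card ι ≤ l) {p : Finset ι → P.X}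
    (hp : (fun S => L.fac.π (p S)) ∈ Cub P'.T ι) : p ∈ Cub P.T ι := by
  obtain ⟨c, hc, m, rfl⟩ := L.exists_cube_of_proj hp
  refine L.faceTriv_mem (fun J S₀ hJ _ => ?_) hc
  have := Finset.card_le_univ J
  omega

end LieStep

end MP_e326dc_an
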